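import Mathlib

set_option autoImplicit false

/-!
# The combinatorial inequality behind the `m+4` bound

For a symmetric weight `w : ι → ι → [0,1]` of total mass `μ`, with degrees `d a = ∑ b, w a b`,
and every real vector `x`, there is a shift `c` with
`4 ∑ d a (x a - c)^2 ≤ (μ+4) ∑ x a ^2`.
-/

namespace Pool.H629LW

open Finset

/-- one-coordinate estimate -/
lemma one_coord (θ d x c : ℝ) (hd : d < θ) :
    d * (x - c) ^ 2 ≤ θ * x ^ 2 + θ * c ^ 2 * (d / (θ - d)) := by
  have he : 0 < θ - d := by linarith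
  have hkey : θ * x ^ 2 + θ * c ^ 2 * (d / (θ - d)) - d * (x - c) ^ 2
      = ((θ - d) * x + d * c) ^ 2 / (θ - d) := by
    field_simp
    ring
  have : 0 ≤ ((θ - d) * x + d * c) ^ 2 / (θ - d) := by positivity
  linarith

/-- the conclusion from the secular inequality -/
lemma secular {ι : Type*} [Fintype ι] [DecidableEq ι] (d x : ι → ℝ) (θ : ℝ) (i0 : ι)
    (h0' : 0 < θ) (h1 : θ < d i0) (hd : ∀ a, a ≠ i0 → d a < θ)
    (hsec : ∑ a ∈ univ.erase i0, d a / (θ - d a) ≤ d i0 / (d i0 - θ)) :
    ∃ c : ℝ, ∑ a, d a * (x a - c) ^ 2 ≤ θ * ∑ a, x a ^ 2 := by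
  set t : ℝ := d i0 - θ with ht
  have htp : 0 < t := by rw [ht]; linarith
  have hdp : 0 < d i0 := by linarith
  set c : ℝ := t / d i0 * x i0 with hc
  refine ⟨c, ?_⟩
  rw [← Finset.add_sum_erase univ (fun a => d a * (x a - c) ^ 2) (mem_univ i0),
    ← Finset.add_sum_erase univ (fun a => x a ^ 2) (mem_univ i0)]
  have hs : ∑ a ∈ univ.erase i0, d a * (x a - c) ^ 2
      ≤ θ * ∑ a ∈ univ.erase i0, x a ^ 2 + θ * c ^ 2 * (d i0 / t) := by
    calc ∑ a ∈ univ.erase i0, d a * (x a - c) ^ 2
        ≤ ∑ a ∈ univ.erase i0, (θ * x a ^ 2 + θ * c ^ 2 * (d a / (θ - d a))) := by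
          apply Finset.sum_le_sum
          intro a ha
          exact one_coord θ (d a) (x a) c (hd a (Finset.ne_of_mem_erase ha))
      _ = θ * ∑ a ∈ univ.erase i0, x a ^ 2
            + θ * c ^ 2 * ∑ a ∈ univ.erase i0, d a / (θ - d a) := by
          rw [Finset.sum_add_distrib, Finset.mul_sum, Finset.mul_sum]
      _ ≤ _ := by
          have : 0 ≤ θ * c ^ 2 := by positivity
          have := mul_le_mul_of_nonneg_left hsec this
          linarith
  have h0 : d i0 * (x i0 - c) ^ 2 - θ * x i0 ^ 2 + θ * c ^ 2 * (d i0 / t) = 0 := by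
    have hθ' : θ = d i0 - t := by rw [ht]; ring
    rw [hθ', hc]
    field_simp
    ring
  have : (fun a => d a * (x a - c) ^ 2) i0 = d i0 * (x i0 - c) ^ 2 := rfl
  linarith [hs, h0]

/-- real inequality for regime (i) -/
lemma regime_one (θ t w : ℝ) (hw : w ≤ 1) (h : 0 ≤ θ - t) (hr : (θ - t) ^ 2 ≤ 2 * θ) :
    t * (θ + t - w) + θ * (2 * θ - 2 * t - 4 + w) ≤ (θ + t) * (θ - 1) := by
  nlinarith [mul_nonneg (sub_nonneg.2 hw) h]

/-- real inequality for regime (ii) -/
lemma regime_two (θ t g L : ℝ) (ht : 0 < t) (hg : 0 ≤ g) (hL : L ≤ 4)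
    (hd2 : 0 ≤ θ - t - g) (hr : 2 * θ ≤ (θ - t) ^ 2) :
    t * (θ - t - g) * (θ - 2) + t * (2 * θ - g - L) * (t + g) + t * θ * (2 * g + L - 4)
      ≤ (θ + t) * (t + g) * (θ - 2) := by
  have h1 : 0 ≤ g * ((θ - t) ^ 2 - 2 * θ + t * g) :=
    mul_nonneg hg (by nlinarith [mul_nonneg ht.le hg])
  have h2 : 0 ≤ t * (θ - t - g) * (4 - L) := by
    apply mul_nonneg (mul_nonneg ht.le hd2); linarith
  nlinarith [h1, h2]


/-- elementary estimate of `d/(θ-d)` for `d = u + r` -/
lemma phi_bound (θ u r U0 e : ℝ) (hu : u ≤ U0) (hu0 : 0 ≤ u) (hr : 0 ≤ r) (hU : U0 < θ)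
    (he : 0 < e) (hd : e ≤ θ - (u + r)) :
    (u + r) / (θ - (u + r)) ≤ (u + r * (θ / e)) / (θ - U0) := by
  have h1 : 0 < θ - (u + r) := by linarith
  have h2 : 0 < θ - u := by linarith
  have h3 : 0 < θ - U0 := by linarith
  have hθ : 0 < θ := by linarith
  have hid : (u + r) / (θ - (u + r)) = u / (θ - u) + r * θ / ((θ - u) * (θ - (u + r))) := by
    field_simp
    ring
  have ha : u / (θ - u) ≤ u / (θ - U0) :=
    div_le_div_of_nonneg_left hu0 h3 (by linarith)
  have hb : r * θ / ((θ - u) * (θ - (u + r))) ≤ r * θ / ((θ - U0) * e) := by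
    apply div_le_div_of_nonneg_left (by positivity) (by positivity)
    apply mul_le_mul (by linarith) hd he.le h2.le
  have hc : (u + r * (θ / e)) / (θ - U0) = u / (θ - U0) + r * θ / ((θ - U0) * e) := by
    field_simp
  rw [hid, hc]
  linarith

theorem comb {ι : Type*} [Fintype ι] [DecidableEq ι] (w : ι → ι → ℝ)
    (hs : ∀ a b, w a b = w b a) (h0 : ∀ a b, 0 ≤ w a b) (h1 : ∀ a b, w a b ≤ 1) (x : ι → ℝ) :
    ∃ c : ℝ, 4 * ∑ a, (∑ b, w a b) * (x a - c) ^ 2
      ≤ ((∑ a, ∑ b, w a b) + 4) * ∑ a, x a ^ 2 := by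
  set d : ι → ℝ := fun a => ∑ b, w a b with hd
  set μ : ℝ := ∑ a, d a with hμ
  have hd0 : ∀ a, 0 ≤ d a := fun a => Finset.sum_nonneg fun b _ => h0 a b
  have hμ0 : 0 ≤ μ := Finset.sum_nonneg fun a _ => hd0 a
  set θ : ℝ := (μ + 4) / 4 with hθ
  have hθ1 : 1 ≤ θ := by rw [hθ]; linarith
  suffices H : ∃ c : ℝ, ∑ a, d a * (x a - c) ^ 2 ≤ θ * ∑ a, x a ^ 2 by
    obtain ⟨c, hc⟩ := H
    refine ⟨c, ?_⟩
    have : (μ + 4) * ∑ a, x a ^ 2 = 4 * (θ * ∑ a, x a ^ 2) := by rw [hθ]; ring
    rw [this]
    linarith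
  by_cases hA : ∀ a, d a ≤ θ
  · refine ⟨0, ?_⟩
    rw [Finset.mul_sum]
    apply Finset.sum_le_sum
    intro a _
    have := hA a
    simp only [sub_zero]
    exact mul_le_mul_of_nonneg_right this (sq_nonneg _)
  push Not at hA
  obtain ⟨i0, hi0⟩ := hA
  set t : ℝ := d i0 - θ with ht
  have htp : 0 < t := by rw [ht]; linarith
  -- accounting identity for a second index
  have hacc : ∀ j, j ≠ i0 →
      (∀ a, d a = (w a i0 + w a j) + ∑ b ∈ (univ.erase i0).erase j, w a b) ∧
      (∑ a ∈ (univ.erase i0).erase j, (w a i0 + w a j)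
          = d i0 + d j - (w i0 i0 + w j j + 2 * w i0 j)) ∧
      (∑ a ∈ (univ.erase i0).erase j, ∑ b ∈ (univ.erase i0).erase j, w a b
          = μ - 2 * (d i0 + d j) + (w i0 i0 + w j j + 2 * w i0 j)) := by
    intro j hj
    have hjmem : j ∈ univ.erase i0 := Finset.mem_erase.2 ⟨hj, mem_univ j⟩
    have e1 : ∀ f : ι → ℝ, ∑ b, f b = f i0 + (f j + ∑ b ∈ (univ.erase i0).erase j, f b) := by
      intro f
      rw [Finset.add_sum_erase (univ.erase i0) f hjmem, Finset.add_sum_erase univ f (mem_univ i0)]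
    have hda : ∀ a, d a = (w a i0 + w a j) + ∑ b ∈ (univ.erase i0).erase j, w a b := by
      intro a
      have := e1 (fun b => w a b)
      simp only [hd]
      rw [this]; ring
    have hU : ∑ a ∈ (univ.erase i0).erase j, (w a i0 + w a j)
          = d i0 + d j - (w i0 i0 + w j j + 2 * w i0 j) := by
      rw [Finset.sum_add_distrib]
      have h2 : ∑ a ∈ (univ.erase i0).erase j, w a i0 = ∑ a ∈ (univ.erase i0).erase j, w i0 a :=
        Finset.sum_congr rfl fun a _ => hs a i0
      have h3 : ∑ a ∈ (univ.erase i0).erase j, w a j = ∑ a ∈ (univ.erase i0).erase j, w j a :=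
        Finset.sum_congr rfl fun a _ => hs a j
      rw [h2, h3]
      have h4 := hda i0
      have h5 := hda j
      have h6 := hs j i0
      linarith
    refine ⟨hda, hU, ?_⟩
    have h7 := e1 d
    have h8 : ∑ a ∈ (univ.erase i0).erase j, d a
        = ∑ a ∈ (univ.erase i0).erase j, (w a i0 + w a j)
          + ∑ a ∈ (univ.erase i0).erase j, ∑ b ∈ (univ.erase i0).erase j, w a b := by
      rw [← Finset.sum_add_distrib]
      exact Finset.sum_congr rfl fun a _ => hda a
    rw [← hμ] at h7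
    linarith
  have hpair : ∀ j, j ≠ i0 → d j ≤ θ - t := by
    intro j hj
    obtain ⟨_, _, hρ⟩ := hacc j hj
    have hρ0 : 0 ≤ ∑ a ∈ (univ.erase i0).erase j, ∑ b ∈ (univ.erase i0).erase j, w a b :=
      Finset.sum_nonneg fun a _ => Finset.sum_nonneg fun b _ => h0 a b
    have := h1 i0 i0
    have := h1 j j
    have := h1 i0 j
    have hμθ : μ = 4 * θ - 4 := by rw [hθ]; ring
    rw [hρ, hμθ] at hρ0
    rw [ht]
    linarith
  have hμθ : μ = 4 * θ - 4 := by rw [hθ]; ring
  have hsplit : μ = d i0 + ∑ a ∈ univ.erase i0, d a :=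
    (Finset.add_sum_erase univ d (mem_univ i0)).symm
  have hd1 : d i0 = θ + t := by rw [ht]; ring
  apply secular d x θ i0 (by linarith) hi0 (fun a ha => by have := hpair a ha; linarith)
  rw [← ht]
  by_cases hbig : μ ≤ 2 * d i0
  · -- case 1
    calc ∑ a ∈ univ.erase i0, d a / (θ - d a)
        ≤ ∑ a ∈ univ.erase i0, d a / t := by
          apply Finset.sum_le_sum
          intro a ha
          have := hpair a (Finset.ne_of_mem_erase ha)
          exact div_le_div_of_nonneg_left (hd0 a) htp (by linarith)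
      _ = (∑ a ∈ univ.erase i0, d a) / t := by rw [Finset.sum_div]
      _ ≤ d i0 / t := by
          apply div_le_div_of_nonneg_right _ htp.le
          linarith
  push Not at hbig
  have hθ2 : 2 < θ := by linarith
  have htθ : 0 ≤ θ - t := by linarith
  rcases le_total ((θ - t) ^ 2) (2 * θ) with hreg | hreg
  · -- regime (i)
    have hda : ∀ a, d a = w a i0 + ∑ b ∈ univ.erase i0, w a b := by
      intro a
      exact (Finset.add_sum_erase univ (fun b => w a b) (mem_univ i0)).symm
    have hW : ∑ a ∈ univ.erase i0, w a i0 = d i0 - w i0 i0 := by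
      have : ∑ a ∈ univ.erase i0, w a i0 = ∑ a ∈ univ.erase i0, w i0 a :=
        Finset.sum_congr rfl fun a _ => hs a i0
      rw [this]
      have := hda i0
      linarith
    have hσ : ∑ a ∈ univ.erase i0, ∑ b ∈ univ.erase i0, w a b
        = 2 * θ - 2 * t - 4 + w i0 i0 := by
      have h2 : ∑ a ∈ univ.erase i0, d a = ∑ a ∈ univ.erase i0, w a i0
          + ∑ a ∈ univ.erase i0, ∑ b ∈ univ.erase i0, w a b := by
        rw [← Finset.sum_add_distrib]
        exact Finset.sum_congr rfl fun a _ => hda a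
      linarith
    calc ∑ a ∈ univ.erase i0, d a / (θ - d a)
        ≤ ∑ a ∈ univ.erase i0, (w a i0 + (∑ b ∈ univ.erase i0, w a b) * (θ / t)) / (θ - 1) := by
          apply Finset.sum_le_sum
          intro a ha
          have h2 := hpair a (Finset.ne_of_mem_erase ha)
          have h3 := hda a
          rw [h3] at h2 ⊢
          exact phi_bound θ (w a i0) (∑ b ∈ univ.erase i0, w a b) 1 t (h1 a i0) (h0 a i0)
            (Finset.sum_nonneg fun b _ => h0 a b) (by linarith) htp (by linarith)
      _ = ((d i0 - w i0 i0) + (2 * θ - 2 * t - 4 + w i0 i0) * (θ / t)) / (θ - 1) := by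
          rw [← Finset.sum_div, Finset.sum_add_distrib, hW, ← Finset.sum_mul, hσ]
      _ ≤ d i0 / t := by
          have h3 := regime_one θ t (w i0 i0) (h1 i0 i0) htθ hreg
          rw [div_le_div_iff₀ (by linarith) htp]
          have h4 : ((d i0 - w i0 i0) + (2 * θ - 2 * t - 4 + w i0 i0) * (θ / t)) * t
              = t * (θ + t - w i0 i0) + θ * (2 * θ - 2 * t - 4 + w i0 i0) := by
            rw [hd1]; field_simp
          rw [h4, hd1]
          exact h3
  · -- regime (ii)
    rcases (univ.erase i0).eq_empty_or_nonempty with hemp | hne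
    · rw [hemp, Finset.sum_empty]
      apply div_nonneg (hd0 i0) htp.le
    obtain ⟨j, hjm, hjmax⟩ := Finset.exists_max_image (univ.erase i0) d hne
    have hj : j ≠ i0 := Finset.ne_of_mem_erase hjm
    obtain ⟨hda, hU, hρ⟩ := hacc j hj
    set L : ℝ := w i0 i0 + w j j + 2 * w i0 j with hL
    have hL4 : L ≤ 4 := by
      have := h1 i0 i0
      have := h1 j j
      have := h1 i0 j
      rw [hL]; linarith
    set g : ℝ := θ - t - d j with hg
    have hg0 : 0 ≤ g := by have := hpair j hj; rw [hg]; linarith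
    have hdj : d j = θ - t - g := by rw [hg]; ring
    have htg : 0 < t + g := by linarith
    calc ∑ a ∈ univ.erase i0, d a / (θ - d a)
        = d j / (θ - d j) + ∑ a ∈ (univ.erase i0).erase j, d a / (θ - d a) :=
          (Finset.add_sum_erase (univ.erase i0) (fun a => d a / (θ - d a)) hjm).symm
      _ ≤ d j / (θ - d j) + ∑ a ∈ (univ.erase i0).erase j, ((w a i0 + w a j)
            + (∑ b ∈ (univ.erase i0).erase j, w a b) * (θ / (t + g))) / (θ - 2) := by
          apply add_le_add (le_refl _)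
          apply Finset.sum_le_sum
          intro a ha
          have h2 := hjmax a (Finset.mem_of_mem_erase ha)
          have h3 := hda a
          rw [h3] at h2 ⊢
          have := h1 a i0
          have := h1 a j
          have := h0 a i0
          have := h0 a j
          exact phi_bound θ (w a i0 + w a j) (∑ b ∈ (univ.erase i0).erase j, w a b) 2 (t + g)
            (by linarith) (by linarith) (Finset.sum_nonneg fun b _ => h0 a b) hθ2 htg
            (by linarith)
      _ = (θ - t - g) / (t + g)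
            + ((2 * θ - g - L) + (2 * g + L - 4) * (θ / (t + g))) / (θ - 2) := by
          rw [← Finset.sum_div, Finset.sum_add_distrib, hU, ← Finset.sum_mul, hρ, hdj, hd1, hμθ]
          congr 2
          · ring
          · ring
      _ ≤ d i0 / t := by
          have h3 := regime_two θ t g L htp hg0 hL4 (by rw [← hdj]; exact hd0 j) hreg
          have h5 : 0 < θ - 2 := by linarith
          rw [hd1, le_div_iff₀ htp]
          have h4 : ((θ - t - g) / (t + g)
            + ((2 * θ - g - L) + (2 * g + L - 4) * (θ / (t + g))) / (θ - 2)) * t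
            = (t * (θ - t - g) * (θ - 2) + t * (2 * θ - g - L) * (t + g)
                + t * θ * (2 * g + L - 4)) / ((t + g) * (θ - 2)) := by
            field_simp
            ring
          rw [h4, div_le_iff₀ (by positivity)]
          linarith

end Pool.H629LW
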