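import Mathlib
import Pool.Agent.H629LW.Comb

set_option autoImplicit false

/-!
# The matrix part of the `m+4` commutator bound
-/

namespace Pool.H629LW

open Finset Matrix

variable {n : Type*} [Fintype n] [DecidableEq n]

/-- squared Frobenius norm -/
noncomputable def N2 (A : Matrix n n ℂ) : ℝ := ∑ i, ∑ j, ‖A i j‖ ^ 2

omit [DecidableEq n] in
lemma N2_nonneg (A : Matrix n n ℂ) : 0 ≤ N2 A :=
  Finset.sum_nonneg fun _ _ => Finset.sum_nonneg fun _ _ => by positivity

omit [DecidableEq n] in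
lemma trace_conjTranspose_mul (A B : Matrix n n ℂ) :
    (Aᴴ * B).trace = ∑ i, ∑ j, star (A i j) * B i j := by
  simp only [Matrix.trace, Matrix.diag, Matrix.mul_apply, Matrix.conjTranspose_apply]
  rw [Finset.sum_comm]

omit [DecidableEq n] in
lemma N2_eq (A : Matrix n n ℂ) : N2 A = ((Aᴴ * A).trace).re := by
  rw [trace_conjTranspose_mul, N2, Complex.re_sum]
  apply Finset.sum_congr rfl
  intro i _
  rw [Complex.re_sum]
  apply Finset.sum_congr rfl
  intro j _
  have : star (A i j) * A i j = ((‖A i j‖ ^ 2 : ℝ) : ℂ) := by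
    rw [Complex.star_def, mul_comm, Complex.mul_conj, Complex.normSq_eq_norm_sq]
  rw [this, Complex.ofReal_re]

omit [DecidableEq n] in
lemma N2_conjTranspose (A : Matrix n n ℂ) : N2 Aᴴ = N2 A := by
  unfold N2
  rw [Finset.sum_comm]
  simp

omit [DecidableEq n] in
lemma re_trace_symm (A B : Matrix n n ℂ) : ((Bᴴ * A).trace).re = ((Aᴴ * B).trace).re := by
  have : (Bᴴ * A) = (Aᴴ * B)ᴴ := by rw [Matrix.conjTranspose_mul, Matrix.conjTranspose_conjTranspose]
  rw [this, Matrix.trace_conjTranspose, Complex.star_def, Complex.conj_re]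

omit [DecidableEq n] in
lemma N2_sub (A B : Matrix n n ℂ) :
    N2 (A - B) = N2 A + N2 B - 2 * ((Aᴴ * B).trace).re := by
  rw [N2_eq, N2_eq, N2_eq, Matrix.conjTranspose_sub, Matrix.sub_mul, Matrix.mul_sub,
    Matrix.mul_sub, Matrix.trace_sub, Matrix.trace_sub, Matrix.trace_sub, Complex.sub_re,
    Complex.sub_re, Complex.sub_re, re_trace_symm A B]
  ring

omit [DecidableEq n] in
lemma N2_add (A B : Matrix n n ℂ) :
    N2 (A + B) = N2 A + N2 B + 2 * ((Aᴴ * B).trace).re := by
  rw [N2_eq, N2_eq, N2_eq, Matrix.conjTranspose_add, Matrix.add_mul, Matrix.mul_add,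
    Matrix.mul_add, Matrix.trace_add, Matrix.trace_add, Matrix.trace_add, Complex.add_re,
    Complex.add_re, Complex.add_re, re_trace_symm A B]
  ring

omit [DecidableEq n] in
/-- Audenaert's identity, in inequality form. -/
lemma comm_bound (Z Y : Matrix n n ℂ) :
    N2 (Z * Y - Y * Z) ≤ N2 (Z * Y) + N2 (Y * Z) + N2 (Zᴴ * Y) + N2 (Y * Zᴴ) := by
  have h1 := N2_nonneg (Zᴴ * Y + Y * Zᴴ)
  rw [N2_add] at h1
  rw [N2_sub]
  have h2 : (((Zᴴ * Y)ᴴ * (Y * Zᴴ)).trace).re = (((Z * Y)ᴴ * (Y * Z)).trace).re := by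
    have e : ((Z * Y)ᴴ * (Y * Z))ᴴ = Zᴴ * (Yᴴ * (Z * Y)) := by
      simp only [Matrix.conjTranspose_mul, Matrix.conjTranspose_conjTranspose, Matrix.mul_assoc]
    have e2 : (((Z * Y)ᴴ * (Y * Z)).trace).re = ((Zᴴ * (Yᴴ * (Z * Y))).trace).re := by
      rw [← e, Matrix.trace_conjTranspose, Complex.star_def, Complex.conj_re]
    rw [e2, Matrix.trace_mul_comm Zᴴ (Yᴴ * (Z * Y))]
    simp only [Matrix.conjTranspose_mul, Matrix.conjTranspose_conjTranspose, Matrix.mul_assoc]
  linarith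

omit [DecidableEq n] in
/-- parallelogram law for `P ± i Q` -/
lemma N2_parallel (P Q : Matrix n n ℂ) :
    N2 (P + Complex.I • Q) + N2 (P - Complex.I • Q) = 2 * N2 P + 2 * N2 Q := by
  have h : N2 (Complex.I • Q) = N2 Q := by
    unfold N2; simp
  rw [N2_add, N2_sub, h]
  ring

/-- unitary invariance -/
lemma N2_unitary (U V : Matrix n n ℂ) (hU : U * Uᴴ = 1) (hV : V * Vᴴ = 1) (A : Matrix n n ℂ) :
    N2 (Uᴴ * A * V) = N2 A := by
  rw [N2_eq, N2_eq]
  have : (Uᴴ * A * V)ᴴ * (Uᴴ * A * V) = Vᴴ * (Aᴴ * A * V) := by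
    simp only [Matrix.conjTranspose_mul, Matrix.conjTranspose_conjTranspose]
    calc Vᴴ * (Aᴴ * U) * (Uᴴ * A * V) = Vᴴ * (Aᴴ * (U * Uᴴ) * A * V) := by
          simp only [Matrix.mul_assoc]
      _ = _ := by rw [hU, Matrix.mul_one]
  rw [this, Matrix.trace_mul_comm, Matrix.mul_assoc, hV, Matrix.mul_one]

omit [DecidableEq n] in
/-- Bessel's inequality for a pairwise orthogonal family with norms at most `M` -/
lemma bessel {κ : Type*} [Fintype κ] (C : κ → Matrix n n ℂ) (M : ℝ) (hM0 : 0 ≤ M)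
    (horth : ∀ a b, a ≠ b → ((C a)ᴴ * C b).trace = 0) (hM : ∀ a, N2 (C a) ≤ M) (p q : n) :
    ∑ a, ‖C a p q‖ ^ 2 ≤ M := by
  classical
  set s : ℝ := ∑ a, ‖C a p q‖ ^ 2 with hs
  have hs0 : 0 ≤ s := Finset.sum_nonneg fun _ _ => by positivity
  set V : Matrix n n ℂ := ∑ a, (star (C a p q)) • C a with hV
  have hVpq : V p q = (s : ℂ) := by
    rw [hV, hs, Complex.ofReal_sum]
    rw [Matrix.sum_apply]
    apply Finset.sum_congr rfl
    intro a _
    rw [Matrix.smul_apply, smul_eq_mul, Complex.star_def, mul_comm, Complex.mul_conj,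
      Complex.normSq_eq_norm_sq]
  have hVN : N2 V = ∑ a, ‖C a p q‖ ^ 2 * N2 (C a) := by
    rw [N2_eq, hV, Matrix.conjTranspose_sum, Matrix.sum_mul, Matrix.trace_sum, Complex.re_sum]
    apply Finset.sum_congr rfl
    intro a _
    rw [Matrix.mul_sum, Matrix.trace_sum, Finset.sum_eq_single a]
    · rw [Matrix.conjTranspose_smul, Matrix.smul_mul, Matrix.mul_smul, Matrix.trace_smul,
        Matrix.trace_smul, star_star, smul_eq_mul, smul_eq_mul, ← mul_assoc, Complex.star_def,
        Complex.mul_conj, Complex.normSq_eq_norm_sq, N2_eq, Complex.re_ofReal_mul]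
    · intro b _ hb
      rw [Matrix.conjTranspose_smul, Matrix.smul_mul, Matrix.mul_smul, Matrix.trace_smul,
        Matrix.trace_smul, horth a b (Ne.symm hb)]
      simp
    · intro h; exact absurd (Finset.mem_univ a) h
  have h1 : s ^ 2 ≤ N2 V := by
    have : ‖V p q‖ ^ 2 ≤ N2 V := by
      unfold N2
      calc ‖V p q‖ ^ 2 ≤ ∑ j, ‖V p j‖ ^ 2 :=
            Finset.single_le_sum (f := fun j => ‖V p j‖ ^ 2) (fun _ _ => by positivity)
              (Finset.mem_univ q)
        _ ≤ _ := Finset.single_le_sum (f := fun i => ∑ j, ‖V i j‖ ^ 2)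
              (fun _ _ => Finset.sum_nonneg fun _ _ => by positivity) (Finset.mem_univ p)
    rw [hVpq, Complex.norm_real, Real.norm_eq_abs, sq_abs] at this
    exact this
  have h2 : N2 V ≤ M * s := by
    rw [hVN, hs, Finset.mul_sum]
    apply Finset.sum_le_sum
    intro a _
    rw [mul_comm]
    exact mul_le_mul_of_nonneg_right (hM a) (by positivity)
  by_contra hcon
  push Not at hcon
  nlinarith


omit [Fintype n] [DecidableEq n] in
lemma swap3 {n κ : Type*} [Fintype n] [Fintype κ] (f : κ → n → n → ℝ) :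
    ∑ i, ∑ j, ∑ a, f a i j = ∑ a, ∑ i, ∑ j, f a i j := by
  calc ∑ i, ∑ j, ∑ a, f a i j = ∑ i, ∑ a, ∑ j, f a i j := by
        apply Finset.sum_congr rfl; intro i _; rw [Finset.sum_comm]
    _ = _ := Finset.sum_comm

/-- The bound for one Hermitian matrix. -/
lemma herm_bound {κ : Type*} [Fintype κ] (A : Matrix n n ℂ) (hA : A.IsHermitian)
    (C : κ → Matrix n n ℂ) (M : ℝ) (hM0 : 0 < M)
    (horth : ∀ a b, a ≠ b → ((C a)ᴴ * C b).trace = 0) (hM : ∀ a, N2 (C a) ≤ M) :
    ∃ c : ℝ, ∑ a, (N2 ((A - (c : ℂ) • (1 : Matrix n n ℂ)) * C a)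
        + N2 (C a * (A - (c : ℂ) • (1 : Matrix n n ℂ))))
      ≤ (4 * M + ∑ a, N2 (C a)) * N2 A / 2 := by
  set U : Matrix n n ℂ := (hA.eigenvectorUnitary : Matrix n n ℂ) with hU
  have hUU : U * Uᴴ = 1 := by
    have := Unitary.coe_mul_star_self hA.eigenvectorUnitary
    exact this
  set x : n → ℝ := hA.eigenvalues with hx
  have hdiag : Uᴴ * A * U = diagonal (fun i => (x i : ℂ)) := by
    have := hA.conjStarAlgAut_star_eigenvectorUnitary
    rw [Unitary.conjStarAlgAut_star_apply] at this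
    rw [Matrix.star_eq_conjTranspose] at this
    exact this
  -- rotated family
  set D : κ → Matrix n n ℂ := fun a => Uᴴ * C a * U with hD
  have hDN : ∀ a, N2 (D a) = N2 (C a) := fun a => N2_unitary U U hUU hUU (C a)
  have hDorth : ∀ a b, a ≠ b → ((D a)ᴴ * D b).trace = 0 := by
    intro a b hab
    have e : (D a)ᴴ * D b = Uᴴ * ((C a)ᴴ * C b * U) := by
      simp only [hD, Matrix.conjTranspose_mul, Matrix.conjTranspose_conjTranspose]
      calc Uᴴ * ((C a)ᴴ * U) * (Uᴴ * C b * U) = Uᴴ * ((C a)ᴴ * (U * Uᴴ) * C b * U) := by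
            simp only [Matrix.mul_assoc]
        _ = _ := by rw [hUU, Matrix.mul_one]
    rw [e, Matrix.trace_mul_comm, Matrix.mul_assoc, hUU, Matrix.mul_one]
    exact horth a b hab
  set p : n → n → ℝ := fun i j => ∑ a, ‖D a i j‖ ^ 2 with hp
  have hp0 : ∀ i j, 0 ≤ p i j := fun i j => Finset.sum_nonneg fun _ _ => by positivity
  have hpM : ∀ i j, p i j ≤ M := fun i j =>
    bessel D M hM0.le hDorth (fun a => by rw [hDN]; exact hM a) i j
  set w : n → n → ℝ := fun i j => (p i j + p j i) / (2 * M) with hw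
  have hws : ∀ i j, w i j = w j i := fun i j => by simp only [hw]; rw [add_comm]
  have hw0 : ∀ i j, 0 ≤ w i j := fun i j => by
    simp only [hw]; have := hp0 i j; have := hp0 j i; positivity
  have hw1 : ∀ i j, w i j ≤ 1 := fun i j => by
    simp only [hw]
    rw [div_le_one (by linarith)]
    have := hpM i j; have := hpM j i; linarith
  obtain ⟨c, hc⟩ := comb w hws hw0 hw1 x
  refine ⟨c, ?_⟩
  have hsum : ∑ i, ∑ j, p i j = ∑ a, N2 (C a) := by
    have : ∀ a, N2 (C a) = ∑ i, ∑ j, ‖D a i j‖ ^ 2 := fun a => by rw [← hDN]; rfl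
    simp_rw [this]
    exact swap3 (fun a i j => ‖D a i j‖ ^ 2)
  have hsumw : ∑ i, ∑ j, w i j = (∑ a, N2 (C a)) / M := by
    have h1 : ∀ i, ∑ j, w i j = (∑ j, p i j + ∑ j, p j i) / (2 * M) := by
      intro i
      rw [← Finset.sum_add_distrib, Finset.sum_div]
    simp_rw [h1]
    rw [← Finset.sum_div, Finset.sum_add_distrib, Finset.sum_comm (f := fun i j => p j i), hsum]
    field_simp
    ring
  have hNA : N2 A = ∑ i, x i ^ 2 := by
    rw [← N2_unitary U U hUU hUU A, hdiag]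
    unfold N2
    apply Finset.sum_congr rfl
    intro i _
    rw [Finset.sum_eq_single i]
    · rw [Matrix.diagonal_apply_eq, Complex.norm_real, Real.norm_eq_abs, sq_abs]
    · intro j _ hj
      rw [Matrix.diagonal_apply_ne _ (Ne.symm hj)]; simp
    · intro h; exact absurd (Finset.mem_univ i) h
  set S : Matrix n n ℂ := A - (c : ℂ) • (1 : Matrix n n ℂ) with hS
  have hSd : Uᴴ * S * U = diagonal (fun i => ((x i - c : ℝ) : ℂ)) := by
    have hUU' : Uᴴ * U = 1 := by
      have := Unitary.coe_star_mul_self hA.eigenvectorUnitary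
      exact this
    have e : Uᴴ * S * U = Uᴴ * A * U - (c : ℂ) • (Uᴴ * U) := by
      rw [hS, Matrix.mul_sub, Matrix.sub_mul, Matrix.mul_smul, Matrix.mul_one, Matrix.smul_mul]
    rw [e, hdiag, hUU']
    ext i j
    by_cases hij : i = j
    · subst hij
      simp
    · simp [hij]
  have hL : ∀ a, N2 (S * C a) = ∑ i, ∑ j, (x i - c) ^ 2 * ‖D a i j‖ ^ 2 := by
    intro a
    have e : Uᴴ * (S * C a) * U = diagonal (fun i => ((x i - c : ℝ) : ℂ)) * D a := by
      rw [← hSd]
      simp only [hD]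
      calc Uᴴ * (S * C a) * U = Uᴴ * S * (1 : Matrix n n ℂ) * C a * U := by
            simp only [Matrix.mul_assoc, Matrix.mul_one]
        _ = _ := by rw [← hUU]; simp only [Matrix.mul_assoc]
    rw [← N2_unitary U U hUU hUU (S * C a), e]
    unfold N2
    apply Finset.sum_congr rfl; intro i _
    apply Finset.sum_congr rfl; intro j _
    rw [Matrix.diagonal_mul, norm_mul, mul_pow, Complex.norm_real, Real.norm_eq_abs, sq_abs]
  have hR : ∀ a, N2 (C a * S) = ∑ i, ∑ j, (x j - c) ^ 2 * ‖D a i j‖ ^ 2 := by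
    intro a
    have e : Uᴴ * (C a * S) * U = D a * diagonal (fun i => ((x i - c : ℝ) : ℂ)) := by
      rw [← hSd]
      simp only [hD]
      calc Uᴴ * (C a * S) * U = Uᴴ * C a * (1 : Matrix n n ℂ) * S * U := by
            simp only [Matrix.mul_assoc, Matrix.mul_one]
        _ = _ := by rw [← hUU]; simp only [Matrix.mul_assoc]
    rw [← N2_unitary U U hUU hUU (C a * S), e]
    unfold N2
    apply Finset.sum_congr rfl; intro i _
    apply Finset.sum_congr rfl; intro j _
    rw [Matrix.mul_diagonal, norm_mul, mul_pow, Complex.norm_real, Real.norm_eq_abs, sq_abs,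
      mul_comm]
  have hLHS : ∑ a, (N2 (S * C a) + N2 (C a * S)) = 2 * M * ∑ i, (∑ j, w i j) * (x i - c) ^ 2 := by
    have h1 : ∑ a, (N2 (S * C a) + N2 (C a * S))
        = ∑ i, ∑ j, (x i - c) ^ 2 * p i j + ∑ i, ∑ j, (x j - c) ^ 2 * p i j := by
      rw [Finset.sum_add_distrib]
      congr 1
      · simp_rw [hL]
        rw [← swap3 (fun a i j => (x i - c) ^ 2 * ‖D a i j‖ ^ 2)]
        apply Finset.sum_congr rfl; intro i _
        apply Finset.sum_congr rfl; intro j _
        rw [hp, ← Finset.mul_sum]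
      · simp_rw [hR]
        rw [← swap3 (fun a i j => (x j - c) ^ 2 * ‖D a i j‖ ^ 2)]
        apply Finset.sum_congr rfl; intro i _
        apply Finset.sum_congr rfl; intro j _
        rw [hp, ← Finset.mul_sum]
    rw [h1, Finset.sum_comm (f := fun i j => (x j - c) ^ 2 * p i j), ← Finset.sum_add_distrib,
      Finset.mul_sum]
    apply Finset.sum_congr rfl; intro i _
    rw [← Finset.mul_sum, ← Finset.mul_sum, ← mul_add, ← Finset.sum_add_distrib]
    have : ∑ j, w i j = (∑ j, (p i j + p j i)) / (2 * M) := by rw [Finset.sum_div]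
    rw [this]
    field_simp
  rw [hLHS, hNA]
  rw [hsumw] at hc
  have h2 : 2 * M * ∑ i, (∑ j, w i j) * (x i - c) ^ 2
      = M / 2 * (4 * ∑ i, (∑ j, w i j) * (x i - c) ^ 2) := by ring
  have h3 : (4 * M + ∑ a, N2 (C a)) * (∑ i, x i ^ 2) / 2
      = M / 2 * (((∑ a, N2 (C a)) / M + 4) * ∑ i, x i ^ 2) := by
    field_simp
    ring
  rw [h2, h3]
  exact mul_le_mul_of_nonneg_left hc (by linarith)


omit [DecidableEq n] in
lemma eq_zero_of_N2 (A : Matrix n n ℂ) (h : N2 A ≤ 0) : A = 0 := by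
  ext i j
  have h1 : ‖A i j‖ ^ 2 ≤ N2 A := by
    unfold N2
    calc ‖A i j‖ ^ 2 ≤ ∑ j, ‖A i j‖ ^ 2 :=
          Finset.single_le_sum (f := fun j => ‖A i j‖ ^ 2) (fun _ _ => by positivity)
            (Finset.mem_univ j)
      _ ≤ _ := Finset.single_le_sum (f := fun i => ∑ j, ‖A i j‖ ^ 2)
            (fun _ _ => Finset.sum_nonneg fun _ _ => by positivity) (Finset.mem_univ i)
  have h2 : ‖A i j‖ ^ 2 ≤ 0 := h1.trans h
  have h3 : ‖A i j‖ = 0 := by nlinarith [norm_nonneg (A i j)]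
  simpa using h3

/-- **Main bound.** For a pairwise orthogonal family `C` with squared norms at most `M`,
`∑ ‖[B, C a]‖² ≤ (4 M + ∑ ‖C a‖²) ‖B‖²`. -/
theorem main_bound {κ : Type*} [Fintype κ] (B : Matrix n n ℂ) (C : κ → Matrix n n ℂ) (M : ℝ)
    (hM0 : 0 ≤ M) (horth : ∀ a b, a ≠ b → ((C a)ᴴ * C b).trace = 0) (hM : ∀ a, N2 (C a) ≤ M) :
    ∑ a, N2 (B * C a - C a * B) ≤ (4 * M + ∑ a, N2 (C a)) * N2 B := by
  rcases hM0.eq_or_lt with h0 | hMpos
  · have hC : ∀ a, C a = 0 := fun a => eq_zero_of_N2 _ (by rw [h0]; exact hM a)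
    have h1 : ∑ a, N2 (B * C a - C a * B) = 0 := by
      apply Finset.sum_eq_zero
      intro a _
      rw [hC a]
      simp [N2]
    rw [h1]
    apply mul_nonneg _ (N2_nonneg B)
    have := Finset.sum_nonneg (s := univ) fun a (_ : a ∈ univ) => N2_nonneg (C a)
    linarith
  set A : Matrix n n ℂ := (1 / 2 : ℂ) • (B + Bᴴ) with hA
  set K : Matrix n n ℂ := (-Complex.I / 2 : ℂ) • (B - Bᴴ) with hK
  have hAh : A.IsHermitian := by
    rw [Matrix.IsHermitian, hA, Matrix.conjTranspose_smul, Matrix.conjTranspose_add,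
      Matrix.conjTranspose_conjTranspose, add_comm Bᴴ B]
    congr 1
    simp
  have hKh : K.IsHermitian := by
    rw [Matrix.IsHermitian, hK, Matrix.conjTranspose_smul, Matrix.conjTranspose_sub,
      Matrix.conjTranspose_conjTranspose]
    ext i j
    simp only [Matrix.smul_apply, Matrix.sub_apply, smul_eq_mul]
    have : star (-Complex.I / 2 : ℂ) = Complex.I / 2 := by
      simp
    rw [this]
    ring
  have hB : B = A + Complex.I • K := by
    ext i j
    simp only [hA, hK, Matrix.add_apply, Matrix.smul_apply, Matrix.sub_apply, smul_eq_mul]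
    linear_combination ((B i j - Bᴴ i j) / 2) * Complex.I_mul_I
  have hB' : Bᴴ = A - Complex.I • K := by
    ext i j
    simp only [hA, hK, Matrix.add_apply, Matrix.smul_apply, Matrix.sub_apply, smul_eq_mul]
    linear_combination (-(B i j - Bᴴ i j) / 2) * Complex.I_mul_I
  have hNB : N2 B = N2 A + N2 K := by
    have h1 := N2_parallel A K
    rw [← hB, ← hB', N2_conjTranspose] at h1
    linarith
  obtain ⟨c1, hc1⟩ := herm_bound A hAh C M hMpos horth hM
  obtain ⟨c2, hc2⟩ := herm_bound K hKh C M hMpos horth hM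
  set P : Matrix n n ℂ := A - (c1 : ℂ) • (1 : Matrix n n ℂ) with hP
  set Q : Matrix n n ℂ := K - (c2 : ℂ) • (1 : Matrix n n ℂ) with hQ
  set Z : Matrix n n ℂ := P + Complex.I • Q with hZ
  have hPh : Pᴴ = P := by
    rw [hP, Matrix.conjTranspose_sub, hAh.eq, Matrix.conjTranspose_smul,
      Matrix.conjTranspose_one, Complex.star_def, Complex.conj_ofReal]
  have hQh : Qᴴ = Q := by
    rw [hQ, Matrix.conjTranspose_sub, hKh.eq, Matrix.conjTranspose_smul,
      Matrix.conjTranspose_one, Complex.star_def, Complex.conj_ofReal]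
  have hZh : Zᴴ = P - Complex.I • Q := by
    rw [hZ, Matrix.conjTranspose_add, Matrix.conjTranspose_smul, hPh, hQh, Complex.star_def,
      Complex.conj_I, neg_smul, sub_eq_add_neg]
  have hZB : Z = B - ((c1 : ℂ) + Complex.I * c2) • (1 : Matrix n n ℂ) := by
    rw [hZ, hP, hQ, hB, smul_sub, add_smul, mul_smul]
    abel
  have hcomm : ∀ a, B * C a - C a * B = Z * C a - C a * Z := by
    intro a
    rw [hZB, Matrix.sub_mul, Matrix.mul_sub, Matrix.smul_mul, Matrix.mul_smul, Matrix.one_mul,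
      Matrix.mul_one]
    abel
  have hterm : ∀ a, N2 (B * C a - C a * B)
      ≤ 2 * (N2 (P * C a) + N2 (C a * P)) + 2 * (N2 (Q * C a) + N2 (C a * Q)) := by
    intro a
    rw [hcomm a]
    have h1 := comm_bound Z (C a)
    have h2 := N2_parallel (P * C a) (Q * C a)
    have h3 := N2_parallel (C a * P) (C a * Q)
    have e1 : Z * C a = P * C a + Complex.I • (Q * C a) := by
      rw [hZ, Matrix.add_mul, Matrix.smul_mul]
    have e2 : Zᴴ * C a = P * C a - Complex.I • (Q * C a) := by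
      rw [hZh, Matrix.sub_mul, Matrix.smul_mul]
    have e3 : C a * Z = C a * P + Complex.I • (C a * Q) := by
      rw [hZ, Matrix.mul_add, Matrix.mul_smul]
    have e4 : C a * Zᴴ = C a * P - Complex.I • (C a * Q) := by
      rw [hZh, Matrix.mul_sub, Matrix.mul_smul]
    rw [← e1, ← e2] at h2
    rw [← e3, ← e4] at h3
    linarith
  calc ∑ a, N2 (B * C a - C a * B)
      ≤ ∑ a, (2 * (N2 (P * C a) + N2 (C a * P)) + 2 * (N2 (Q * C a) + N2 (C a * Q))) :=
        Finset.sum_le_sum fun a _ => hterm a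
    _ = 2 * ∑ a, (N2 (P * C a) + N2 (C a * P)) + 2 * ∑ a, (N2 (Q * C a) + N2 (C a * Q)) := by
        rw [Finset.sum_add_distrib, ← Finset.mul_sum, ← Finset.mul_sum]
    _ ≤ (4 * M + ∑ a, N2 (C a)) * N2 B := by
        rw [hNB]
        nlinarith [hc1, hc2]

end Pool.H629LW
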