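import Mathlib
import Pool.Agent.H629LW.Mat

set_option autoImplicit false

/-!
# The bound over `ℝ` or `ℂ`, and its eigenvalue form
-/

namespace Pool.H629LW

open Finset Matrix

/-- the embedding of an `RCLike` field in `ℂ` -/
noncomputable def toC (K : Type*) [RCLike K] : K →+* ℂ where
  toFun z := ⟨RCLike.re z, RCLike.im z⟩
  map_one' := by apply Complex.ext <;> simp
  map_zero' := by apply Complex.ext <;> simp
  map_mul' z w := by apply Complex.ext <;> simp
  map_add' z w := by apply Complex.ext <;> simp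

lemma toC_star {K : Type*} [RCLike K] (z : K) : toC K (star z) = star (toC K z) := by
  apply Complex.ext <;> simp [toC]

lemma toC_norm {K : Type*} [RCLike K] (z : K) : ‖toC K z‖ = ‖z‖ := by
  have h1 : ‖toC K z‖ ^ 2 = ‖z‖ ^ 2 := by
    rw [← Complex.normSq_eq_norm_sq, Complex.normSq_apply, RCLike.norm_sq_eq_def]
    simp [toC]
  exact (sq_eq_sq₀ (norm_nonneg _) (norm_nonneg _)).1 h1

variable {n : Type*} [Fintype n] [DecidableEq n]

omit [DecidableEq n] in
lemma N2_map {K : Type*} [RCLike K] (A : Matrix n n K) :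
    N2 (A.map (toC K)) = ∑ i, ∑ j, ‖A i j‖ ^ 2 := by
  unfold N2
  simp [toC_norm]

/-- Main bound over an `RCLike` field. -/
theorem main_bound_K {K : Type*} [RCLike K] {κ : Type*} [Fintype κ] (B : Matrix n n K)
    (C : κ → Matrix n n K) (M : ℝ) (hM0 : 0 ≤ M)
    (horth : ∀ a b, a ≠ b → ((C a)ᴴ * C b).trace = 0)
    (hM : ∀ a, ∑ i, ∑ j, ‖C a i j‖ ^ 2 ≤ M) :
    ∑ a, ∑ i, ∑ j, ‖(B * C a - C a * B) i j‖ ^ 2
      ≤ (4 * M + ∑ a, ∑ i, ∑ j, ‖C a i j‖ ^ 2) * ∑ i, ∑ j, ‖B i j‖ ^ 2 := by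
  have hconj : ∀ A : Matrix n n K, (A.map (toC K))ᴴ = Aᴴ.map (toC K) := by
    intro A
    ext i j
    simp only [Matrix.conjTranspose_apply, Matrix.map_apply]
    rw [← toC_star]
  have h := main_bound (B.map (toC K)) (fun a => (C a).map (toC K)) M hM0 ?_ ?_
  · have e : ∀ a, N2 (B.map (toC K) * (C a).map (toC K) - (C a).map (toC K) * B.map (toC K))
        = ∑ i, ∑ j, ‖(B * C a - C a * B) i j‖ ^ 2 := by
      intro a
      rw [← N2_map]
      congr 1
      ext i j
      simp only [Matrix.sub_apply, Matrix.map_apply, map_sub, Matrix.mul_apply, map_sum, map_mul]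
    simp only [e, N2_map] at h
    exact h
  · intro a b hab
    show (((C a).map (toC K))ᴴ * (C b).map (toC K)).trace = 0
    rw [hconj, ← Matrix.map_mul]
    have : ((((C a)ᴴ * C b).map (toC K)).trace) = toC K (((C a)ᴴ * C b).trace) := by
      simp only [Matrix.trace, Matrix.diag, Matrix.map_apply, map_sum]
    rw [this, horth a b hab, map_zero]
  · intro a
    show N2 ((C a).map (toC K)) ≤ M
    rw [N2_map]
    exact hM a

/-- The inequality with constant `4`, in the form of the conjecture. -/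
theorem orth_family (K : Type) [RCLike K] (n k : ℕ) (B : Matrix (Fin n) (Fin n) K)
      (C : Fin k → Matrix (Fin n) (Fin n) K)
      (horth : ∀ a b : Fin k, a ≠ b → Matrix.trace (C a * (C b)ᴴ) = 0) :
      ∑ a : Fin k, (∑ i : Fin n, ∑ j : Fin n, ‖(B * C a - C a * B) i j‖ ^ 2) ≤
        (4 * (⨆ a : Fin k, ∑ i : Fin n, ∑ j : Fin n, ‖C a i j‖ ^ 2)
          + ∑ a : Fin k, ∑ i : Fin n, ∑ j : Fin n, ‖C a i j‖ ^ 2)
        * ∑ i : Fin n, ∑ j : Fin n, ‖B i j‖ ^ 2 := by
  apply main_bound_K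
  · apply Real.iSup_nonneg
    intro a
    exact Finset.sum_nonneg fun _ _ => Finset.sum_nonneg fun _ _ => by positivity
  · intro a b hab
    rw [Matrix.trace_mul_comm]
    exact horth b a (Ne.symm hab)
  · intro a
    exact le_ciSup (f := fun a : Fin k => ∑ i : Fin n, ∑ j : Fin n, ‖C a i j‖ ^ 2)
      (Set.finite_range _).bddAbove a


/-- `tr(Aᴴ A)` is the squared Frobenius norm. -/
lemma trace_self {K : Type*} [RCLike K] {n : Type*} [Fintype n] (A : Matrix n n K) :
    (Aᴴ * A).trace = ((∑ i, ∑ j, ‖A i j‖ ^ 2 : ℝ) : K) := by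
  simp only [Matrix.trace, Matrix.diag, Matrix.mul_apply, Matrix.conjTranspose_apply]
  rw [Finset.sum_comm]
  push_cast
  apply Finset.sum_congr rfl; intro i _
  apply Finset.sum_congr rfl; intro j _
  rw [← RCLike.conj_mul]
  rfl

lemma trace_id {K : Type*} [RCLike K] {n : Type*} [Fintype n] (A X W : Matrix n n K) :
    (A * (X * W - W * X)).trace = ((A * X - X * A) * W).trace := by
  rw [Matrix.mul_sub A (X * W) (W * X), Matrix.sub_mul (A * X) (X * A) W, Matrix.trace_sub,
    Matrix.trace_sub, ← Matrix.mul_assoc A X W, ← Matrix.mul_assoc A W X,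
    Matrix.trace_mul_comm (A * W) X, Matrix.mul_assoc X A W]

/-- The sum of any `m` eigenvalues of `T_X` is at most `m + 4`. -/
theorem eigen_sum (K : Type) [RCLike K] (n : ℕ) (X : Matrix (Fin n) (Fin n) K)
    (hX : ∑ i, ∑ j, ‖X i j‖ ^ 2 = 1)
    (hM : (Matrix.of (fun p q : Fin n × Fin n =>
        (Xᴴ * (X * Matrix.single q.1 q.2 (1:K) - Matrix.single q.1 q.2 (1:K) * X)
          - (X * Matrix.single q.1 q.2 (1:K) - Matrix.single q.1 q.2 (1:K) * X) * Xᴴ)
            p.1 p.2)).IsHermitian) (S : Finset (Fin n × Fin n)) :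
      ∑ p ∈ S, hM.eigenvalues p ≤ (S.card : ℝ) + 4 := by
  classical
  set T : Matrix (Fin n × Fin n) (Fin n × Fin n) K := Matrix.of (fun p q : Fin n × Fin n =>
        (Xᴴ * (X * Matrix.single q.1 q.2 (1:K) - Matrix.single q.1 q.2 (1:K) * X)
          - (X * Matrix.single q.1 q.2 (1:K) - Matrix.single q.1 q.2 (1:K) * X) * Xᴴ)
            p.1 p.2) with hT
  -- the eigenvectors as matrices
  set Y : (Fin n × Fin n) → Matrix (Fin n) (Fin n) K :=
    fun p => Matrix.of (fun i j => hM.eigenvectorBasis p (i, j)) with hY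
  have hinner : ∀ p q, ((Y p)ᴴ * Y q).trace = if p = q then 1 else 0 := by
    intro p q
    have h1 := (orthonormal_iff_ite.1 hM.eigenvectorBasis.orthonormal) p q
    rw [← h1, PiLp.inner_apply, Fintype.sum_prod_type]
    simp only [Matrix.trace, Matrix.diag, Matrix.mul_apply, Matrix.conjTranspose_apply]
    rw [Finset.sum_comm]
    apply Finset.sum_congr rfl; intro i _
    apply Finset.sum_congr rfl; intro j _
    simp [hY, RCLike.inner_apply, mul_comm]
  have hnorm : ∀ p, ∑ i, ∑ j, ‖Y p i j‖ ^ 2 = 1 := by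
    intro p
    have h1 := trace_self (Y p)
    rw [hinner p p, if_pos rfl] at h1
    exact_mod_cast h1.symm
  -- the action of `T`
  have hact : ∀ (A : Matrix (Fin n) (Fin n) K) (p : Fin n × Fin n),
      ∑ q, T p q * A q.1 q.2 = (Xᴴ * (X * A - A * X) - (X * A - A * X) * Xᴴ) p.1 p.2 := by
    intro A p
    have hA : A = ∑ q : Fin n × Fin n, A q.1 q.2 • Matrix.single q.1 q.2 (1:K) := by
      conv_lhs => rw [Matrix.matrix_eq_sum_single A]
      rw [Fintype.sum_prod_type]
      simp [Matrix.smul_single]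
    conv_rhs => rw [hA]
    simp only [Matrix.mul_sum, Matrix.sum_mul, ← Finset.sum_sub_distrib, Matrix.mul_smul,
      Matrix.smul_mul, ← smul_sub]
    rw [Matrix.sum_apply]
    apply Finset.sum_congr rfl
    intro q _
    rw [Matrix.smul_apply, smul_eq_mul, mul_comm, hT, Matrix.of_apply]
  have heig : ∀ p, hM.eigenvalues p
      = ∑ i, ∑ j, ‖(X * Y p - Y p * X) i j‖ ^ 2 := by
    intro p
    have h1 := hM.mulVec_eigenvectorBasis p
    have h2 : ∀ q : Fin n × Fin n,
        (Xᴴ * (X * Y p - Y p * X) - (X * Y p - Y p * X) * Xᴴ) q.1 q.2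
          = (hM.eigenvalues p : K) * Y p q.1 q.2 := by
      intro q
      rw [← hact (Y p) q]
      have h3 := congrFun h1 q
      simp only [Matrix.mulVec, dotProduct, Pi.smul_apply] at h3
      rw [RCLike.real_smul_eq_coe_mul] at h3
      exact h3
    have h4 : ((Y p)ᴴ * (Xᴴ * (X * Y p - Y p * X) - (X * Y p - Y p * X) * Xᴴ)).trace
        = (hM.eigenvalues p : K) := by
      have e : (Xᴴ * (X * Y p - Y p * X) - (X * Y p - Y p * X) * Xᴴ)
          = (hM.eigenvalues p : K) • Y p := by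
        ext i j
        rw [Matrix.smul_apply, smul_eq_mul]
        exact h2 (i, j)
      rw [e, Matrix.mul_smul, Matrix.trace_smul, hinner p p, if_pos rfl, smul_eq_mul, mul_one]
    have h5 : ((Y p)ᴴ * (Xᴴ * (X * Y p - Y p * X) - (X * Y p - Y p * X) * Xᴴ)).trace
        = ((X * Y p - Y p * X)ᴴ * (X * Y p - Y p * X)).trace := by
      have e1 : (X * Y p - Y p * X)ᴴ = (Y p)ᴴ * Xᴴ - Xᴴ * (Y p)ᴴ := by
        rw [Matrix.conjTranspose_sub, Matrix.conjTranspose_mul, Matrix.conjTranspose_mul]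
      rw [e1]
      exact trace_id _ _ _
    rw [h5, trace_self] at h4
    exact_mod_cast h4.symm
  have hfin := main_bound_K X (fun p : S => Y p.1) 1 zero_le_one ?_ ?_
  · rw [hX, mul_one] at hfin
    have e1 : ∑ p : S, ∑ i, ∑ j, ‖(X * Y p.1 - Y p.1 * X) i j‖ ^ 2 = ∑ p ∈ S, hM.eigenvalues p := by
      rw [← Finset.sum_coe_sort S]
      apply Finset.sum_congr rfl
      intro p _
      exact (heig p.1).symm
    have e2 : ∑ p : S, ∑ i, ∑ j, ‖Y p.1 i j‖ ^ 2 = (S.card : ℝ) := by
      simp [hnorm]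
    rw [e1, e2] at hfin
    linarith
  · intro a b hab
    rw [hinner, if_neg]
    intro h
    exact hab (Subtype.ext h)
  · intro a
    exact (hnorm a.1).le

end Pool.H629LW
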