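import Mathlib
import Pool.Agent.H629LW.Final

set_option autoImplicit false

/-!
# The exact Lu–Wenzel bound for families with vanishing products
-/

namespace Pool.H629LW

open Finset Matrix
open scoped ComplexOrder

variable {n : Type*} [Fintype n] [DecidableEq n]

/-- `N2 (A * Y)` in a diagonalising basis -/
lemma N2_left (A Y : Matrix n n ℂ) (s : n → ℝ)
    (h : Aᴴ * A = diagonal (fun i => (s i : ℂ))) :
    N2 (A * Y) = ∑ i, ∑ j, s i * ‖Y i j‖ ^ 2 := by
  rw [N2_eq, Matrix.conjTranspose_mul, Matrix.mul_assoc, ← Matrix.mul_assoc Aᴴ A Y, h,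
    trace_conjTranspose_mul, Complex.re_sum]
  apply Finset.sum_congr rfl; intro i _
  rw [Complex.re_sum]
  apply Finset.sum_congr rfl; intro j _
  rw [Matrix.diagonal_mul]
  have : star (Y i j) * ((s i : ℂ) * Y i j) = ((s i * ‖Y i j‖ ^ 2 : ℝ) : ℂ) := by
    have h1 : Y i j * star (Y i j) = ((‖Y i j‖ ^ 2 : ℝ) : ℂ) := by
      rw [Complex.star_def, Complex.mul_conj, Complex.normSq_eq_norm_sq]
    rw [Complex.ofReal_mul, ← h1]
    ring
  rw [this, Complex.ofReal_re]

/-- singular value data of a matrix -/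
lemma svd_data (A : Matrix n n ℂ) : ∃ (U : Matrix n n ℂ) (s : n → ℝ), U * Uᴴ = 1 ∧ Uᴴ * U = 1 ∧
    (A * U)ᴴ * (A * U) = diagonal (fun i => (s i : ℂ)) ∧ (∀ i, 0 ≤ s i) ∧ ∑ i, s i = N2 A := by
  have hH : (Aᴴ * A).IsHermitian := Matrix.isHermitian_conjTranspose_mul_self A
  set U : Matrix n n ℂ := (hH.eigenvectorUnitary : Matrix n n ℂ) with hU
  have h1 : U * Uᴴ = 1 := by
    have := Unitary.coe_mul_star_self hH.eigenvectorUnitary
    exact this
  have h2 : Uᴴ * U = 1 := by
    have := Unitary.coe_star_mul_self hH.eigenvectorUnitary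
    exact this
  have h3 : Uᴴ * (Aᴴ * A) * U = diagonal (fun i => (hH.eigenvalues i : ℂ)) := by
    have := hH.conjStarAlgAut_star_eigenvectorUnitary
    rw [Unitary.conjStarAlgAut_star_apply] at this
    exact this
  have h4 : (A * U)ᴴ * (A * U) = diagonal (fun i => (hH.eigenvalues i : ℂ)) := by
    rw [← h3, Matrix.conjTranspose_mul]
    simp only [Matrix.mul_assoc]
  refine ⟨U, hH.eigenvalues, h1, h2, h4, ?_, ?_⟩
  · intro i
    exact (Matrix.posSemidef_conjTranspose_mul_self A).eigenvalues_nonneg i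
  · have h5 : N2 (A * U) = N2 A := by
      have := N2_unitary (1 : Matrix n n ℂ) U (by simp) h1 A
      simpa using this
    have h6 := N2_left (A * U) 1 hH.eigenvalues h4
    rw [Matrix.mul_one, h5] at h6
    rw [h6]
    apply Finset.sum_congr rfl; intro i _
    rw [Finset.sum_eq_single i]
    · simp
    · intro j _ hj
      rw [Matrix.one_apply_ne (Ne.symm hj)]; simp
    · intro h; exact absurd (Finset.mem_univ i) h

/-- The two-sided multiplication estimate. -/
lemma bp_aux {κ : Type*} [Fintype κ] (A B : Matrix n n ℂ) (C : κ → Matrix n n ℂ) (M : ℝ)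
    (hM0 : 0 ≤ M) (horth : ∀ a b, a ≠ b → ((C a)ᴴ * C b).trace = 0) (hM : ∀ a, N2 (C a) ≤ M) :
    N2 B * ∑ a, N2 (A * C a) + N2 A * ∑ a, N2 (C a * B)
      ≤ N2 A * N2 B * (M + ∑ a, N2 (C a)) := by
  obtain ⟨U, s, hU1, hU2, hs, hs0, hsum⟩ := svd_data A
  obtain ⟨V, t, hV1, hV2, ht, ht0, htsum⟩ := svd_data Bᴴ
  rw [N2_conjTranspose] at htsum
  set D : κ → Matrix n n ℂ := fun a => Uᴴ * C a * V with hD
  have hDN : ∀ a, N2 (D a) = N2 (C a) := fun a => N2_unitary U V hU1 hV1 (C a)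
  have hDorth : ∀ a b, a ≠ b → ((D a)ᴴ * D b).trace = 0 := by
    intro a b hab
    have e : (D a)ᴴ * D b = Vᴴ * ((C a)ᴴ * C b * V) := by
      simp only [hD, Matrix.conjTranspose_mul, Matrix.conjTranspose_conjTranspose]
      calc Vᴴ * ((C a)ᴴ * U) * (Uᴴ * C b * V) = Vᴴ * ((C a)ᴴ * (U * Uᴴ) * C b * V) := by
            simp only [Matrix.mul_assoc]
        _ = _ := by rw [hU1, Matrix.mul_one]
    rw [e, Matrix.trace_mul_comm, Matrix.mul_assoc, hV1, Matrix.mul_one]
    exact horth a b hab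
  set p : n → n → ℝ := fun i j => ∑ a, ‖D a i j‖ ^ 2 with hp
  have hp0 : ∀ i j, 0 ≤ p i j := fun i j => Finset.sum_nonneg fun _ _ => by positivity
  have hpM : ∀ i j, p i j ≤ M := fun i j =>
    bessel D M hM0 hDorth (fun a => by rw [hDN]; exact hM a) i j
  have hA : ∀ a, N2 (A * C a) = ∑ i, ∑ j, s i * ‖D a i j‖ ^ 2 := by
    intro a
    rw [← N2_left (A * U) (D a) s hs]
    have e : A * U * D a = (1 : Matrix n n ℂ)ᴴ * (A * C a) * V := by
      simp only [hD, Matrix.conjTranspose_one, Matrix.one_mul]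
      calc A * U * (Uᴴ * C a * V) = A * (U * Uᴴ) * C a * V := by simp only [Matrix.mul_assoc]
        _ = _ := by rw [hU1, Matrix.mul_one]
    rw [e, N2_unitary 1 V (by simp) hV1]
  have hB : ∀ a, N2 (C a * B) = ∑ i, ∑ j, t j * ‖D a i j‖ ^ 2 := by
    intro a
    have h1 := N2_left (Bᴴ * V) (D a)ᴴ t ht
    have e : Bᴴ * V * (D a)ᴴ = ((1 : Matrix n n ℂ)ᴴ * (C a * B)ᴴ * U) := by
      simp only [hD, Matrix.conjTranspose_one, Matrix.one_mul, Matrix.conjTranspose_mul,
        Matrix.conjTranspose_conjTranspose]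
      calc Bᴴ * V * (Vᴴ * ((C a)ᴴ * U)) = Bᴴ * (V * Vᴴ) * (C a)ᴴ * U := by
            simp only [Matrix.mul_assoc]
        _ = _ := by rw [hV1, Matrix.mul_one]
    rw [e, N2_unitary 1 U (by simp) hU1, N2_conjTranspose] at h1
    rw [h1, Finset.sum_comm]
    apply Finset.sum_congr rfl; intro i _
    apply Finset.sum_congr rfl; intro j _
    simp
  have hSA : ∑ a, N2 (A * C a) = ∑ i, ∑ j, s i * p i j := by
    simp_rw [hA]
    rw [← swap3 (fun a i j => s i * ‖D a i j‖ ^ 2)]
    apply Finset.sum_congr rfl; intro i _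
    apply Finset.sum_congr rfl; intro j _
    rw [hp, ← Finset.mul_sum]
  have hSB : ∑ a, N2 (C a * B) = ∑ i, ∑ j, t j * p i j := by
    simp_rw [hB]
    rw [← swap3 (fun a i j => t j * ‖D a i j‖ ^ 2)]
    apply Finset.sum_congr rfl; intro i _
    apply Finset.sum_congr rfl; intro j _
    rw [hp, ← Finset.mul_sum]
  have hS : ∑ a, N2 (C a) = ∑ i, ∑ j, p i j := by
    have : ∀ a, N2 (C a) = ∑ i, ∑ j, ‖D a i j‖ ^ 2 := fun a => by rw [← hDN]; rfl
    simp_rw [this]
    exact (swap3 (fun a i j => ‖D a i j‖ ^ 2)).symm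
  have hsle : ∀ i, s i ≤ N2 A := fun i => by
    rw [← hsum]; exact Finset.single_le_sum (fun i _ => hs0 i) (Finset.mem_univ i)
  have htle : ∀ i, t i ≤ N2 B := fun i => by
    rw [← htsum]; exact Finset.single_le_sum (fun i _ => ht0 i) (Finset.mem_univ i)
  have hst : ∑ i, ∑ j, s i * t j = N2 A * N2 B := by
    rw [← hsum, ← htsum, Finset.sum_mul_sum]
  calc N2 B * ∑ a, N2 (A * C a) + N2 A * ∑ a, N2 (C a * B)
      = ∑ i, ∑ j, (N2 B * s i + N2 A * t j) * p i j := by
        rw [hSA, hSB, Finset.mul_sum, Finset.mul_sum, ← Finset.sum_add_distrib]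
        apply Finset.sum_congr rfl; intro i _
        rw [Finset.mul_sum, Finset.mul_sum, ← Finset.sum_add_distrib]
        apply Finset.sum_congr rfl; intro j _
        ring
    _ ≤ ∑ i, ∑ j, (N2 A * N2 B * p i j + s i * t j * M) := by
        apply Finset.sum_le_sum; intro i _
        apply Finset.sum_le_sum; intro j _
        have h1 : 0 ≤ (N2 A - s i) * (N2 B - t j) :=
          mul_nonneg (sub_nonneg.2 (hsle i)) (sub_nonneg.2 (htle j))
        have h2 : 0 ≤ (N2 A - s i) * (N2 B - t j) * p i j := mul_nonneg h1 (hp0 i j)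
        have h3 : 0 ≤ s i * t j * (M - p i j) :=
          mul_nonneg (mul_nonneg (hs0 i) (ht0 j)) (sub_nonneg.2 (hpM i j))
        nlinarith [h2, h3]
    _ = N2 A * N2 B * (M + ∑ a, N2 (C a)) := by
        have e1 : ∑ i, ∑ j, (N2 A * N2 B * p i j + s i * t j * M)
            = N2 A * N2 B * (∑ i, ∑ j, p i j) + (∑ i, ∑ j, s i * t j) * M := by
          rw [Finset.mul_sum, Finset.sum_mul, ← Finset.sum_add_distrib]
          apply Finset.sum_congr rfl; intro i _
          rw [Finset.mul_sum, Finset.sum_mul, ← Finset.sum_add_distrib]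
        rw [e1, hst, ← hS]
        ring

/-- `N2` is submultiplicative. -/
lemma N2_mul_le (A B : Matrix n n ℂ) : N2 (A * B) ≤ N2 A * N2 B := by
  obtain ⟨U, s, hU1, hU2, hs, hs0, hsum⟩ := svd_data A
  have e : A * U * (Uᴴ * B) = A * B := by
    calc A * U * (Uᴴ * B) = A * (U * Uᴴ) * B := by simp only [Matrix.mul_assoc]
      _ = _ := by rw [hU1, Matrix.mul_one]
  have h1 := N2_left (A * U) (Uᴴ * B) s hs
  rw [e] at h1
  have h2 : N2 (Uᴴ * B) = N2 B := by
    have := N2_unitary U 1 hU1 (by simp) B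
    simpa using this
  rw [h1, ← h2]
  unfold N2
  rw [← N2, Finset.mul_sum]
  apply Finset.sum_le_sum; intro i _
  rw [Finset.mul_sum]
  apply Finset.sum_le_sum; intro j _
  apply mul_le_mul_of_nonneg_right _ (by positivity)
  rw [← hsum]; exact Finset.single_le_sum (fun i _ => hs0 i) (Finset.mem_univ i)

omit [DecidableEq n] in
/-- `p q N2 (P − Q) ≤ (p+q)(q N2 P + p N2 Q)` -/
lemma weighted_sub (P Q : Matrix n n ℂ) (p q : ℝ) :
    p * q * N2 (P - Q) ≤ (p + q) * (q * N2 P + p * N2 Q) := by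
  have h1 := N2_nonneg ((q : ℂ) • P + (p : ℂ) • Q)
  rw [N2_add] at h1
  have h2 : ∀ (r : ℝ) (A : Matrix n n ℂ), N2 ((r : ℂ) • A) = r ^ 2 * N2 A := by
    intro r A
    unfold N2
    rw [Finset.mul_sum]
    apply Finset.sum_congr rfl; intro i _
    rw [Finset.mul_sum]
    apply Finset.sum_congr rfl; intro j _
    rw [Matrix.smul_apply, smul_eq_mul, norm_mul, Complex.norm_real, Real.norm_eq_abs, mul_pow,
      sq_abs]
  have h3 : ((((q : ℂ) • P)ᴴ * ((p : ℂ) • Q)).trace).re = q * (p * ((Pᴴ * Q).trace).re) := by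
    rw [Matrix.conjTranspose_smul, Matrix.smul_mul, Matrix.mul_smul, Matrix.trace_smul,
      Matrix.trace_smul, smul_eq_mul, smul_eq_mul, Complex.star_def, Complex.conj_ofReal,
      Complex.re_ofReal_mul, Complex.re_ofReal_mul]
  rw [h2, h2, h3] at h1
  rw [N2_sub]
  nlinarith [h1]

/-- The estimate for generalised commutators `A C − C B`. -/
lemma bp_bound {κ : Type*} [Fintype κ] (A B : Matrix n n ℂ) (C : κ → Matrix n n ℂ) (M : ℝ)
    (hM0 : 0 ≤ M) (horth : ∀ a b, a ≠ b → ((C a)ᴴ * C b).trace = 0) (hM : ∀ a, N2 (C a) ≤ M) :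
    ∑ a, N2 (A * C a - C a * B) ≤ (M + ∑ a, N2 (C a)) * (N2 A + N2 B) := by
  have haux := bp_aux A B C M hM0 horth hM
  have hS0 : 0 ≤ ∑ a, N2 (C a) := Finset.sum_nonneg fun _ _ => N2_nonneg _
  have hzero : ∀ Z : Matrix n n ℂ, N2 Z = 0 → Z = 0 := by
    intro Z hZ
    unfold N2 at hZ
    ext i j
    have h1 := (Finset.sum_eq_zero_iff_of_nonneg
      (fun i _ => Finset.sum_nonneg (fun j _ => by positivity))).1 hZ i (Finset.mem_univ i)
    have h2 := (Finset.sum_eq_zero_iff_of_nonneg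
      (fun j _ => by positivity)).1 h1 j (Finset.mem_univ j)
    simpa using h2
  rcases eq_or_lt_of_le (N2_nonneg A) with hA | hA
  · have hA' := hzero A hA.symm
    have h1 : ∀ a, N2 (A * C a - C a * B) ≤ N2 (C a) * N2 B := by
      intro a
      have e : N2 (A * C a - C a * B) = N2 (C a * B) := by
        rw [hA', Matrix.zero_mul, zero_sub]
        unfold N2; simp
      rw [e]; exact N2_mul_le _ _
    calc ∑ a, N2 (A * C a - C a * B) ≤ ∑ a, N2 (C a) * N2 B :=
          Finset.sum_le_sum fun a _ => h1 a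
      _ = (∑ a, N2 (C a)) * N2 B := by rw [Finset.sum_mul]
      _ ≤ _ := by
          rw [← hA, zero_add]
          exact mul_le_mul_of_nonneg_right (by linarith) (N2_nonneg B)
  rcases eq_or_lt_of_le (N2_nonneg B) with hB | hB
  · have hB' := hzero B hB.symm
    have h1 : ∀ a, N2 (A * C a - C a * B) ≤ N2 (C a) * N2 A := by
      intro a
      have e : N2 (A * C a - C a * B) = N2 (A * C a) := by
        rw [hB', Matrix.mul_zero, sub_zero]
      rw [e, mul_comm]; exact N2_mul_le _ _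
    calc ∑ a, N2 (A * C a - C a * B) ≤ ∑ a, N2 (C a) * N2 A :=
          Finset.sum_le_sum fun a _ => h1 a
      _ = (∑ a, N2 (C a)) * N2 A := by rw [Finset.sum_mul]
      _ ≤ _ := by
          rw [← hB, add_zero]
          exact mul_le_mul_of_nonneg_right (by linarith) (N2_nonneg A)
  have hpq : 0 < N2 A * N2 B := mul_pos hA hB
  have h1 : N2 A * N2 B * ∑ a, N2 (A * C a - C a * B)
      ≤ (N2 A + N2 B) * (N2 B * ∑ a, N2 (A * C a) + N2 A * ∑ a, N2 (C a * B)) := by
    rw [Finset.mul_sum, Finset.mul_sum, Finset.mul_sum, ← Finset.sum_add_distrib, Finset.mul_sum]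
    apply Finset.sum_le_sum; intro a _
    exact weighted_sub _ _ _ _
  have h2 : (N2 A + N2 B) * (N2 B * ∑ a, N2 (A * C a) + N2 A * ∑ a, N2 (C a * B))
      ≤ (N2 A + N2 B) * (N2 A * N2 B * (M + ∑ a, N2 (C a))) :=
    mul_le_mul_of_nonneg_left haux (by linarith)
  have h3 : N2 A * N2 B * ∑ a, N2 (A * C a - C a * B)
      ≤ N2 A * N2 B * ((M + ∑ a, N2 (C a)) * (N2 A + N2 B)) := by
    calc _ ≤ _ := h1.trans h2
      _ = _ := by ring
  exact le_of_mul_le_mul_left h3 hpq

/-- The sum of the two one-sided estimates with the same matrix. -/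
lemma bp_same {κ : Type*} [Fintype κ] (R : Matrix n n ℂ) (C : κ → Matrix n n ℂ) (M : ℝ)
    (hM0 : 0 ≤ M) (horth : ∀ a b, a ≠ b → ((C a)ᴴ * C b).trace = 0) (hM : ∀ a, N2 (C a) ≤ M) :
    ∑ a, N2 (R * C a) + ∑ a, N2 (C a * R) ≤ (M + ∑ a, N2 (C a)) * N2 R := by
  have haux := bp_aux R R C M hM0 horth hM
  have hS0 : 0 ≤ ∑ a, N2 (C a) := Finset.sum_nonneg fun _ _ => N2_nonneg _
  rcases eq_or_lt_of_le (N2_nonneg R) with hR | hR
  · have h1 : ∑ a, N2 (R * C a) ≤ 0 := by
      calc ∑ a, N2 (R * C a) ≤ ∑ a, N2 R * N2 (C a) :=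
            Finset.sum_le_sum fun a _ => N2_mul_le _ _
        _ = 0 := by simp [← hR]
    have h2 : ∑ a, N2 (C a * R) ≤ 0 := by
      calc ∑ a, N2 (C a * R) ≤ ∑ a, N2 (C a) * N2 R :=
            Finset.sum_le_sum fun a _ => N2_mul_le _ _
        _ = 0 := by simp [← hR]
    rw [← hR, mul_zero]
    linarith
  · have h3 : N2 R * (∑ a, N2 (R * C a) + ∑ a, N2 (C a * R))
        ≤ N2 R * ((M + ∑ a, N2 (C a)) * N2 R) := by
      calc _ = N2 R * ∑ a, N2 (R * C a) + N2 R * ∑ a, N2 (C a * R) := by ring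
        _ ≤ _ := haux
        _ = _ := by ring
    exact le_of_mul_le_mul_left h3 hR

omit [DecidableEq n] in
/-- Pythagoras when the product trace vanishes -/
lemma N2_add_of_orth (P Q : Matrix n n ℂ) (h : (Pᴴ * Q).trace = 0) :
    N2 (P + Q) = N2 P + N2 Q := by
  rw [N2_add, h]; simp

/-- splitting by a projection on the left -/
lemma N2_split_left (E Y : Matrix n n ℂ) (hE : Eᴴ = E) (hE2 : E * E = E) :
    N2 Y = N2 (E * Y) + N2 ((1 - E) * Y) := by
  have e : Y = E * Y + (1 - E) * Y := by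
    rw [← Matrix.add_mul, add_sub_cancel, Matrix.one_mul]
  conv_lhs => rw [e]
  apply N2_add_of_orth
  rw [Matrix.conjTranspose_mul, hE, Matrix.mul_assoc, ← Matrix.mul_assoc E (1 - E) Y,
    Matrix.mul_sub, Matrix.mul_one, hE2, sub_self, Matrix.zero_mul, Matrix.mul_zero,
    Matrix.trace_zero]

/-- splitting by a projection on the right -/
lemma N2_split_right (E Y : Matrix n n ℂ) (hE : Eᴴ = E) (hE2 : E * E = E) :
    N2 Y = N2 (Y * E) + N2 (Y * (1 - E)) := by
  have h := N2_split_left E Yᴴ hE hE2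
  rw [N2_conjTranspose] at h
  rw [h, ← N2_conjTranspose (E * Yᴴ), ← N2_conjTranspose ((1 - E) * Yᴴ)]
  simp only [Matrix.conjTranspose_mul, Matrix.conjTranspose_sub, Matrix.conjTranspose_one,
    Matrix.conjTranspose_conjTranspose, hE]

/-- The bound for families supported in one off-diagonal block. -/
lemma block_bound {κ : Type*} [Fintype κ] (X E : Matrix n n ℂ) (hE : Eᴴ = E) (hE2 : E * E = E)
    (C : κ → Matrix n n ℂ) (M : ℝ) (hM0 : 0 ≤ M)
    (hL : ∀ a, E * C a = C a) (hR : ∀ a, C a * E = 0)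
    (horth : ∀ a b, a ≠ b → ((C a)ᴴ * C b).trace = 0) (hM : ∀ a, N2 (C a) ≤ M) :
    ∑ a, N2 (X * C a - C a * X) ≤ (M + ∑ a, N2 (C a)) * N2 X := by
  set F : Matrix n n ℂ := 1 - E with hF
  have hEF : E * F = 0 := by rw [hF, Matrix.mul_sub, Matrix.mul_one, hE2, sub_self]
  have hFE : F * E = 0 := by rw [hF, Matrix.sub_mul, Matrix.one_mul, hE2, sub_self]
  have hF2 : F * F = F := by
    conv_lhs => rw [hF, Matrix.sub_mul, Matrix.one_mul, ← hF, hEF, sub_zero]
  have hFH : Fᴴ = F := by rw [hF, Matrix.conjTranspose_sub, Matrix.conjTranspose_one, hE]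
  have hEFadd : E + F = 1 := by rw [hF]; abel
  have hFC : ∀ a, F * C a = 0 := by
    intro a; rw [hF, Matrix.sub_mul, Matrix.one_mul, hL a, sub_self]
  have hCF : ∀ a, C a * F = C a := by
    intro a; rw [hF, Matrix.mul_sub, Matrix.mul_one, hR a, sub_zero]
  set A : Matrix n n ℂ := E * X * E with hA
  set D : Matrix n n ℂ := F * X * F with hD
  set R : Matrix n n ℂ := F * X * E with hRdef
  have hnX : N2 A + N2 D + N2 R ≤ N2 X := by
    have h1 := N2_split_left E X hE hE2
    have h2 := N2_split_right E (E * X) hE hE2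
    have h3 := N2_split_right E (F * X) hE hE2
    have h4 := N2_nonneg (E * X * F)
    rw [← hF] at h1 h2 h3
    have e1 : N2 (E * X * E) = N2 A := rfl
    have e2 : N2 (F * X * F) = N2 D := rfl
    have e3 : N2 (F * X * E) = N2 R := rfl
    linarith
  have hcomm : ∀ a, N2 (X * C a - C a * X)
      = N2 (A * C a - C a * D) + (N2 (R * C a) + N2 (C a * R)) := by
    intro a
    have h1 := N2_split_left E (X * C a - C a * X) hE hE2
    rw [← hF] at h1
    have h2 : E * (X * C a - C a * X) = E * X * C a - C a * X := by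
      rw [Matrix.mul_sub, ← Matrix.mul_assoc, ← Matrix.mul_assoc, hL a]
    have h3 : F * (X * C a - C a * X) = R * C a := by
      rw [Matrix.mul_sub, ← Matrix.mul_assoc, ← Matrix.mul_assoc, hFC a, Matrix.zero_mul, sub_zero,
        hRdef, Matrix.mul_assoc (F * X) E (C a), hL a]
    have h4 := N2_split_right F (E * X * C a - C a * X) hFH hF2
    have h5 : (E * X * C a - C a * X) * F = A * C a - C a * D := by
      rw [Matrix.sub_mul, Matrix.mul_assoc (E * X) (C a) F, hCF a, hA, hD,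
        Matrix.mul_assoc (E * X) E (C a), hL a, Matrix.mul_assoc F X F,
        ← Matrix.mul_assoc (C a) F (X * F), hCF a, Matrix.mul_assoc (C a) X F]
    have h6 : (E * X * C a - C a * X) * (1 - F) = - (C a * R) := by
      have : (1 : Matrix n n ℂ) - F = E := by rw [hF]; abel
      rw [this, Matrix.sub_mul, Matrix.mul_assoc (E * X) (C a) E, hR a, Matrix.mul_zero, zero_sub,
        hRdef, Matrix.mul_assoc F X E, ← Matrix.mul_assoc (C a) F (X * E), hCF a,
        Matrix.mul_assoc]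
    have h7 : N2 (-(C a * R)) = N2 (C a * R) := by unfold N2; simp
    rw [h2, h3] at h1
    rw [h5, h6, h7] at h4
    rw [h1, h4]
    ring
  calc ∑ a, N2 (X * C a - C a * X)
      = ∑ a, N2 (A * C a - C a * D) + (∑ a, N2 (R * C a) + ∑ a, N2 (C a * R)) := by
        rw [← Finset.sum_add_distrib, ← Finset.sum_add_distrib]
        exact Finset.sum_congr rfl fun a _ => hcomm a
    _ ≤ (M + ∑ a, N2 (C a)) * (N2 A + N2 D) + (M + ∑ a, N2 (C a)) * N2 R :=
        add_le_add (bp_bound A D C M hM0 horth hM) (bp_same R C M hM0 horth hM)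
    _ = (M + ∑ a, N2 (C a)) * (N2 A + N2 D + N2 R) := by ring
    _ ≤ _ := mul_le_mul_of_nonneg_left hnX
        (add_nonneg hM0 (Finset.sum_nonneg fun _ _ => N2_nonneg _))

/-- a Hermitian inner inverse commuting with a Hermitian matrix -/
lemma pinv (H : Matrix n n ℂ) (hH : H.IsHermitian) :
    ∃ K : Matrix n n ℂ, Kᴴ = K ∧ K * H = H * K ∧ H * K * H = H := by
  set U : Matrix n n ℂ := (hH.eigenvectorUnitary : Matrix n n ℂ) with hU
  have h1 : U * Uᴴ = 1 := Unitary.coe_mul_star_self hH.eigenvectorUnitary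
  have h2 : Uᴴ * U = 1 := Unitary.coe_star_mul_self hH.eigenvectorUnitary
  set L : Matrix n n ℂ := diagonal (fun i => (hH.eigenvalues i : ℂ)) with hL
  set L' : Matrix n n ℂ := diagonal (fun i => (((hH.eigenvalues i)⁻¹ : ℝ) : ℂ)) with hL'
  have h3 : Uᴴ * H * U = L := by
    have := hH.conjStarAlgAut_star_eigenvectorUnitary
    rw [Unitary.conjStarAlgAut_star_apply] at this
    exact this
  have h4 : H = U * L * Uᴴ := by
    rw [← h3]
    calc H = (U * Uᴴ) * H * (U * Uᴴ) := by rw [h1, Matrix.one_mul, Matrix.mul_one]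
      _ = _ := by simp only [Matrix.mul_assoc]
  have hmul : ∀ P Q : Matrix n n ℂ, (U * P * Uᴴ) * (U * Q * Uᴴ) = U * (P * Q) * Uᴴ := by
    intro P Q
    calc (U * P * Uᴴ) * (U * Q * Uᴴ) = U * P * (Uᴴ * U) * Q * Uᴴ := by
          simp only [Matrix.mul_assoc]
      _ = _ := by rw [h2, Matrix.mul_one]; simp only [Matrix.mul_assoc]
  refine ⟨U * L' * Uᴴ, ?_, ?_, ?_⟩
  · rw [Matrix.conjTranspose_mul, Matrix.conjTranspose_mul, Matrix.conjTranspose_conjTranspose,
      ← Matrix.mul_assoc]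
    congr 2
    rw [hL', Matrix.diagonal_conjTranspose]
    congr 1
    ext i
    simp
  · conv_lhs => rw [h4, hmul]
    conv_rhs => rw [h4, hmul]
    congr 2
    rw [hL, hL', Matrix.diagonal_mul_diagonal, Matrix.diagonal_mul_diagonal]
    congr 1
    ext i
    ring
  · conv_lhs => rw [h4, hmul, hmul]
    conv_rhs => rw [h4]
    congr 2
    rw [hL, hL', Matrix.diagonal_mul_diagonal, Matrix.diagonal_mul_diagonal]
    congr 1
    ext i
    by_cases h : hH.eigenvalues i = 0
    · simp [h]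
    · have : ((hH.eigenvalues i : ℝ) : ℂ) ≠ 0 := by exact_mod_cast h
      push_cast
      field_simp

/-- The bound for orthogonal families with vanishing products. -/
theorem null_bound {κ : Type*} [Fintype κ] (X : Matrix n n ℂ)
    (C : κ → Matrix n n ℂ) (M : ℝ) (hM0 : 0 ≤ M) (hnull : ∀ a b, C a * C b = 0)
    (horth : ∀ a b, a ≠ b → ((C a)ᴴ * C b).trace = 0) (hM : ∀ a, N2 (C a) ≤ M) :
    ∑ a, N2 (X * C a - C a * X) ≤ (M + ∑ a, N2 (C a)) * N2 X := by
  set H : Matrix n n ℂ := ∑ b, (C b)ᴴ * C b with hHdef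
  have hH : H.IsHermitian := by
    show Hᴴ = H
    rw [hHdef, Matrix.conjTranspose_sum]
    apply Finset.sum_congr rfl; intro b _
    rw [Matrix.conjTranspose_mul, Matrix.conjTranspose_conjTranspose]
  obtain ⟨K, hK, hKH, hHKH⟩ := pinv H hH
  have hHC : ∀ a, H * C a = 0 := by
    intro a
    rw [hHdef, Matrix.sum_mul]
    apply Finset.sum_eq_zero; intro b _
    rw [Matrix.mul_assoc, hnull b a, Matrix.mul_zero]
  set E : Matrix n n ℂ := 1 - K * H with hE
  have hEH : Eᴴ = E := by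
    rw [hE, Matrix.conjTranspose_sub, Matrix.conjTranspose_one, Matrix.conjTranspose_mul, hK]
    rw [show Hᴴ = H from hH, hKH]
  have hP2 : K * H * (K * H) = K * H := by
    calc K * H * (K * H) = K * (H * K * H) := by simp only [Matrix.mul_assoc]
      _ = _ := by rw [hHKH]
  have hE2 : E * E = E := by
    rw [hE, Matrix.mul_sub, Matrix.mul_one, Matrix.sub_mul, Matrix.one_mul, hP2]
    abel
  have hL : ∀ a, E * C a = C a := by
    intro a
    rw [hE, Matrix.sub_mul, Matrix.one_mul, Matrix.mul_assoc, hHC a, Matrix.mul_zero, sub_zero]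
  have hHE : H * E = 0 := by
    rw [hE, Matrix.mul_sub, Matrix.mul_one, ← Matrix.mul_assoc, hHKH, sub_self]
  have hR : ∀ a, C a * E = 0 := by
    have h1 : ∑ b, N2 (C b * E) = 0 := by
      have h2 : ∑ b, N2 (C b * E) = ((Eᴴ * (H * E)).trace).re := by
        rw [hHdef, Matrix.sum_mul, Matrix.mul_sum, Matrix.trace_sum, Complex.re_sum]
        apply Finset.sum_congr rfl; intro b _
        rw [N2_eq, Matrix.conjTranspose_mul]
        congr 2
        simp only [Matrix.mul_assoc]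
      rw [h2, hHE, Matrix.mul_zero, Matrix.trace_zero, Complex.zero_re]
    intro a
    have h3 := (Finset.sum_eq_zero_iff_of_nonneg (fun b _ => N2_nonneg (C b * E))).1 h1 a
      (Finset.mem_univ a)
    unfold N2 at h3
    ext i j
    have h4 := (Finset.sum_eq_zero_iff_of_nonneg
      (fun i _ => Finset.sum_nonneg (fun j _ => by positivity))).1 h3 i (Finset.mem_univ i)
    have h5 := (Finset.sum_eq_zero_iff_of_nonneg
      (fun j _ => by positivity)).1 h4 j (Finset.mem_univ j)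
    simpa using h5
  exact block_bound X E hEH hE2 C M hM0 hL hR horth hM

/-- The bound over an `RCLike` field. -/
theorem null_bound_K {K : Type*} [RCLike K] {κ : Type*} [Fintype κ] (B : Matrix n n K)
    (C : κ → Matrix n n K) (M : ℝ) (hM0 : 0 ≤ M) (hnull : ∀ a b, C a * C b = 0)
    (horth : ∀ a b, a ≠ b → ((C a)ᴴ * C b).trace = 0)
    (hM : ∀ a, ∑ i, ∑ j, ‖C a i j‖ ^ 2 ≤ M) :
    ∑ a, ∑ i, ∑ j, ‖(B * C a - C a * B) i j‖ ^ 2
      ≤ (M + ∑ a, ∑ i, ∑ j, ‖C a i j‖ ^ 2) * ∑ i, ∑ j, ‖B i j‖ ^ 2 := by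
  have hconj : ∀ A : Matrix n n K, (A.map (toC K))ᴴ = Aᴴ.map (toC K) := by
    intro A
    ext i j
    simp only [Matrix.conjTranspose_apply, Matrix.map_apply]
    rw [← toC_star]
  have h := null_bound (B.map (toC K)) (fun a => (C a).map (toC K)) M hM0 ?_ ?_ ?_
  · have e : ∀ a, N2 (B.map (toC K) * (C a).map (toC K) - (C a).map (toC K) * B.map (toC K))
        = ∑ i, ∑ j, ‖(B * C a - C a * B) i j‖ ^ 2 := by
      intro a
      rw [← N2_map]
      congr 1
      ext i j
      simp only [Matrix.sub_apply, Matrix.map_apply, map_sub, Matrix.mul_apply, map_sum, map_mul]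
    simp only [e, N2_map] at h
    exact h
  · intro a b
    show (C a).map (toC K) * (C b).map (toC K) = 0
    rw [← Matrix.map_mul, hnull a b]
    ext i j
    simp
  · intro a b hab
    show (((C a).map (toC K))ᴴ * (C b).map (toC K)).trace = 0
    rw [hconj, ← Matrix.map_mul]
    have : ((((C a)ᴴ * C b).map (toC K)).trace) = toC K (((C a)ᴴ * C b).trace) := by
      simp only [Matrix.trace, Matrix.diag, Matrix.map_apply, map_sum]
    rw [this, horth a b hab, map_zero]
  · intro a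
    show N2 ((C a).map (toC K)) ≤ M
    rw [N2_map]
    exact hM a

/-- The Lu–Wenzel inequality for null families. -/
theorem null_family (K : Type) [RCLike K] (n k : ℕ) (B : Matrix (Fin n) (Fin n) K)
      (C : Fin k → Matrix (Fin n) (Fin n) K)
      (horth : ∀ a b : Fin k, a ≠ b → Matrix.trace (C a * (C b)ᴴ) = 0)
      (hnull : ∀ a b : Fin k, C a * C b = 0) :
      ∑ a : Fin k, (∑ i : Fin n, ∑ j : Fin n, ‖(B * C a - C a * B) i j‖ ^ 2) ≤
        ((⨆ a : Fin k, ∑ i : Fin n, ∑ j : Fin n, ‖C a i j‖ ^ 2)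
          + ∑ a : Fin k, ∑ i : Fin n, ∑ j : Fin n, ‖C a i j‖ ^ 2)
        * ∑ i : Fin n, ∑ j : Fin n, ‖B i j‖ ^ 2 := by
  apply null_bound_K
  · apply Real.iSup_nonneg
    intro a
    exact Finset.sum_nonneg fun _ _ => Finset.sum_nonneg fun _ _ => by positivity
  · exact hnull
  · intro a b hab
    rw [Matrix.trace_mul_comm]
    exact horth b a (Ne.symm hab)
  · intro a
    exact le_ciSup (f := fun a : Fin k => ∑ i : Fin n, ∑ j : Fin n, ‖C a i j‖ ^ 2)
      (Set.finite_range _).bddAbove a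

end Pool.H629LW
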