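import Mathlib
import Pool.Agent.H629LW.Null

set_option autoImplicit false

/-!
# The exact bound for matrices annihilated by a quadratic polynomial
-/

namespace Pool.H629LW

open Finset Matrix
open scoped ComplexOrder

variable {n : Type*} [Fintype n] [DecidableEq n]

omit [DecidableEq n] in
lemma N2_smul (c : ℂ) (A : Matrix n n ℂ) : N2 (c • A) = ‖c‖ ^ 2 * N2 A := by
  unfold N2
  rw [Finset.mul_sum]
  apply Finset.sum_congr rfl; intro i _
  rw [Finset.mul_sum]
  apply Finset.sum_congr rfl; intro j _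
  rw [Matrix.smul_apply, smul_eq_mul, norm_mul, mul_pow]

omit [DecidableEq n] in
lemma N2_lincomb {κ : Type*} [Fintype κ] (V : κ → Matrix n n ℂ) (c : κ → ℂ)
    (horth : ∀ a b, a ≠ b → ((V a)ᴴ * V b).trace = 0) :
    N2 (∑ a, c a • V a) = ∑ a, ‖c a‖ ^ 2 * N2 (V a) := by
  rw [N2_eq, Matrix.conjTranspose_sum, Matrix.sum_mul, Matrix.trace_sum, Complex.re_sum]
  apply Finset.sum_congr rfl
  intro a _
  rw [Matrix.mul_sum, Matrix.trace_sum, Finset.sum_eq_single a]
  · rw [Matrix.conjTranspose_smul, Matrix.smul_mul, Matrix.mul_smul, Matrix.trace_smul,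
      Matrix.trace_smul, smul_eq_mul, smul_eq_mul, ← mul_assoc, Complex.star_def, mul_comm
      ((starRingEnd ℂ) (c a)), Complex.mul_conj, Complex.normSq_eq_norm_sq, N2_eq,
      Complex.re_ofReal_mul]
  · intro b _ hb
    rw [Matrix.conjTranspose_smul, Matrix.smul_mul, Matrix.mul_smul, Matrix.trace_smul,
      Matrix.trace_smul, horth a b (Ne.symm hb)]
    simp
  · intro h; exact absurd (Finset.mem_univ a) h

omit [DecidableEq n] in
/-- Bessel's inequality against an arbitrary matrix -/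
lemma bessel_gen {κ : Type*} [Fintype κ] (C : κ → Matrix n n ℂ) (M : ℝ) (hM0 : 0 ≤ M)
    (horth : ∀ a b, a ≠ b → ((C a)ᴴ * C b).trace = 0) (hM : ∀ a, N2 (C a) ≤ M)
    (W : Matrix n n ℂ) : ∑ a, ‖(Wᴴ * C a).trace‖ ^ 2 ≤ M * N2 W := by
  classical
  set s : ℝ := ∑ a, ‖(Wᴴ * C a).trace‖ ^ 2 with hs
  have hs0 : 0 ≤ s := Finset.sum_nonneg fun _ _ => by positivity
  rcases hM0.eq_or_lt with h0 | hpos
  · have hC : ∀ a, C a = 0 := fun a => eq_zero_of_N2 _ (by rw [h0]; exact hM a)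
    have : s = 0 := by
      rw [hs]
      apply Finset.sum_eq_zero; intro a _
      rw [hC a]; simp
    rw [this, ← h0, zero_mul]
  set V : Matrix n n ℂ := ∑ a, (star ((Wᴴ * C a).trace)) • C a with hV
  have hWV : (Wᴴ * V).trace = (s : ℂ) := by
    rw [hV, Matrix.mul_sum, Matrix.trace_sum, hs, Complex.ofReal_sum]
    apply Finset.sum_congr rfl; intro a _
    rw [Matrix.mul_smul, Matrix.trace_smul, smul_eq_mul, Complex.star_def, mul_comm,
      Complex.mul_conj, Complex.normSq_eq_norm_sq]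
  have hVN : N2 V = ∑ a, ‖(Wᴴ * C a).trace‖ ^ 2 * N2 (C a) := by
    rw [hV, N2_lincomb C _ horth]
    apply Finset.sum_congr rfl; intro a _
    rw [norm_star]
  have h2 : N2 V ≤ M * s := by
    rw [hVN, hs, Finset.mul_sum]
    apply Finset.sum_le_sum
    intro a _
    rw [mul_comm]
    exact mul_le_mul_of_nonneg_right (hM a) (by positivity)
  have h3 := N2_nonneg ((M : ℂ) • W - V)
  rw [N2_sub, N2_smul, Matrix.conjTranspose_smul, Matrix.smul_mul, Matrix.trace_smul, hWV,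
    smul_eq_mul, Complex.star_def, Complex.conj_ofReal, Complex.re_ofReal_mul, Complex.ofReal_re,
    Complex.norm_real, Real.norm_eq_abs, sq_abs] at h3
  have h4 : M * s ≤ M * (M * N2 W) := by nlinarith
  exact le_of_mul_le_mul_left h4 hpos

omit [DecidableEq n] in
lemma norm_trace_symm (A B : Matrix n n ℂ) : ‖(Bᴴ * A).trace‖ = ‖(Aᴴ * B).trace‖ := by
  have : (Bᴴ * A) = (Aᴴ * B)ᴴ := by rw [Matrix.conjTranspose_mul, Matrix.conjTranspose_conjTranspose]
  rw [this, Matrix.trace_conjTranspose, norm_star]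

omit [DecidableEq n] in
/-- Bessel's inequality for an orthogonal, not normalised, family -/
lemma bessel_two {ι : Type*} [Fintype ι] (W : ι → Matrix n n ℂ)
    (horth : ∀ a b, a ≠ b → ((W a)ᴴ * W b).trace = 0) (C : Matrix n n ℂ) :
    ∑ k, ‖((W k)ᴴ * C).trace‖ ^ 2 / N2 (W k) ≤ N2 C := by
  have h := bessel_gen (fun k => (((Real.sqrt (N2 (W k)))⁻¹ : ℝ) : ℂ) • W k) 1 zero_le_one ?_ ?_ C
  · rw [one_mul] at h
    refine le_trans (le_of_eq ?_) h
    apply Finset.sum_congr rfl; intro k _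
    rw [Matrix.mul_smul, Matrix.trace_smul, smul_eq_mul, norm_mul, mul_pow, Complex.norm_real,
      Real.norm_eq_abs, sq_abs, inv_pow, Real.sq_sqrt (N2_nonneg _), norm_trace_symm]
    rw [div_eq_mul_inv, mul_comm]
  · intro a b hab
    show (((((Real.sqrt (N2 (W a)))⁻¹ : ℝ) : ℂ) • W a)ᴴ
      * ((((Real.sqrt (N2 (W b)))⁻¹ : ℝ) : ℂ) • W b)).trace = 0
    rw [Matrix.conjTranspose_smul, Matrix.smul_mul, Matrix.mul_smul, Matrix.trace_smul,
      Matrix.trace_smul, horth a b hab]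
    simp
  · intro a
    show N2 ((((Real.sqrt (N2 (W a)))⁻¹ : ℝ) : ℂ) • W a) ≤ 1
    rw [N2_smul, Complex.norm_real, Real.norm_eq_abs, sq_abs, inv_pow, Real.sq_sqrt (N2_nonneg _)]
    exact inv_mul_le_one

lemma single_sandwich (A B : Matrix n n ℂ) (k l i j : n) :
    (A * Matrix.single k l (1:ℂ) * B) i j = A i k * B l j := by
  rw [Matrix.mul_apply, Finset.sum_eq_single l]
  · congr 1
    rw [Matrix.mul_apply, Finset.sum_eq_single k]
    · simp
    · intro m _ hm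
      simp [Matrix.single_apply, Ne.symm hm]
    · intro h; exact absurd (Finset.mem_univ k) h
  · intro m _ hm
    rw [Matrix.mul_apply, Finset.sum_eq_zero, zero_mul]
    intro m' _
    simp [Matrix.single_apply, Ne.symm hm]
  · intro h; exact absurd (Finset.mem_univ l) h

omit [DecidableEq n] in
lemma trace_adj (X Z C : Matrix n n ℂ) :
    ((Xᴴ * Z - Z * Xᴴ)ᴴ * C).trace = (Zᴴ * (X * C - C * X)).trace := by
  rw [Matrix.conjTranspose_sub, Matrix.conjTranspose_mul, Matrix.conjTranspose_mul,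
    Matrix.conjTranspose_conjTranspose, Matrix.sub_mul, Matrix.mul_sub, Matrix.trace_sub,
    Matrix.trace_sub, Matrix.mul_assoc, Matrix.mul_assoc X Zᴴ C, Matrix.trace_mul_comm X (Zᴴ * C),
    Matrix.mul_assoc]

lemma trace_single_conj (Y : Matrix n n ℂ) (i j : n) :
    ((Matrix.single i j (1:ℂ))ᴴ * Y).trace = Y i j := by
  rw [trace_conjTranspose_mul, Finset.sum_eq_single i]
  · rw [Finset.sum_eq_single j]
    · simp
    · intro m _ hm
      simp [Matrix.single_apply, Ne.symm hm]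
    · intro h; exact absurd (Finset.mem_univ j) h
  · intro m _ hm
    apply Finset.sum_eq_zero; intro m' _
    simp [Matrix.single_apply, Ne.symm hm]
  · intro h; exact absurd (Finset.mem_univ i) h

lemma split4 (P : Finset n) (f : n → n → ℝ) :
    ∑ i, ∑ j, f i j = ∑ i ∈ P, ∑ j ∈ P, f i j + ∑ i ∈ P, ∑ j ∈ Pᶜ, f i j
      + ∑ i ∈ Pᶜ, ∑ j ∈ P, f i j + ∑ i ∈ Pᶜ, ∑ j ∈ Pᶜ, f i j := by
  rw [← Finset.sum_add_sum_compl P]
  have : ∀ i, ∑ j, f i j = ∑ j ∈ P, f i j + ∑ j ∈ Pᶜ, f i j := fun i =>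
    (Finset.sum_add_sum_compl P _).symm
  simp_rw [this]
  rw [Finset.sum_add_distrib, Finset.sum_add_distrib]
  ring

omit [Fintype n] [DecidableEq n] in
lemma swap3' {κ : Type*} [Fintype κ] (P Q : Finset n) (f : κ → n → n → ℝ) :
    ∑ c, ∑ i ∈ P, ∑ j ∈ Q, f c i j = ∑ i ∈ P, ∑ j ∈ Q, ∑ c, f c i j := by
  rw [Finset.sum_comm]
  apply Finset.sum_congr rfl; intro i _
  rw [Finset.sum_comm]

/-- the combinatorial estimate -/
lemma comb_quad (P : Finset n) (s t : n → ℝ) (hs : ∀ i, 0 ≤ s i) (ht : ∀ j, 0 ≤ t j) (σ d M N : ℝ)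
    (hσs : ∑ i ∈ P, s i = σ) (hσt : ∑ j ∈ Pᶜ, t j = σ) (hd : 0 ≤ d) (hM : 0 ≤ M) (hN0 : 0 ≤ N)
    (hN : (P.card : ℝ) * (Pᶜ.card : ℝ) * d + ((P.card : ℝ) + (Pᶜ.card : ℝ)) * σ
      ≤ ((P.card : ℝ) + (Pᶜ.card : ℝ)) * N)
    (r : n → n → ℝ) (hr0 : ∀ i ∈ P, ∀ j ∈ Pᶜ, 0 ≤ r i j) (hrM : ∀ i ∈ P, ∀ j ∈ Pᶜ, r i j ≤ M) :
    ∑ i ∈ P, ∑ j ∈ Pᶜ, (d + s i + t j) * r i j ≤ (M + ∑ i ∈ P, ∑ j ∈ Pᶜ, r i j) * N := by
  set R : ℝ := ∑ i ∈ P, ∑ j ∈ Pᶜ, r i j with hR
  have hR0 : 0 ≤ R := Finset.sum_nonneg fun i hi => Finset.sum_nonneg fun j hj => hr0 i hi j hj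
  have hσ0 : 0 ≤ σ := by rw [← hσs]; exact Finset.sum_nonneg fun i _ => hs i
  have hRM : R ≤ (P.card : ℝ) * (Pᶜ.card : ℝ) * M := by
    calc R ≤ ∑ i ∈ P, ∑ j ∈ Pᶜ, M :=
          Finset.sum_le_sum fun i hi => Finset.sum_le_sum fun j hj => hrM i hi j hj
      _ = _ := by simp only [Finset.sum_const, nsmul_eq_mul]; ring
  rcases P.eq_empty_or_nonempty with hP | hP
  · have : ∑ i ∈ P, ∑ j ∈ Pᶜ, (d + s i + t j) * r i j = 0 := by rw [hP]; simp
    rw [this]; positivity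
  rcases Pᶜ.eq_empty_or_nonempty with hQ | hQ
  · have : ∑ i ∈ P, ∑ j ∈ Pᶜ, (d + s i + t j) * r i j = 0 := by rw [hQ]; simp
    rw [this]; positivity
  have hp : (1 : ℝ) ≤ (P.card : ℝ) := by exact_mod_cast hP.card_pos
  have hq : (1 : ℝ) ≤ (Pᶜ.card : ℝ) := by exact_mod_cast hQ.card_pos
  set p : ℝ := (P.card : ℝ)
  set q : ℝ := (Pᶜ.card : ℝ)
  set S1 : ℝ := ∑ i ∈ P, ∑ j ∈ Pᶜ, (s i + t j) * r i j with hS1
  have hsplit : ∑ i ∈ P, ∑ j ∈ Pᶜ, (d + s i + t j) * r i j = d * R + S1 := by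
    rw [hR, hS1, Finset.mul_sum, ← Finset.sum_add_distrib]
    apply Finset.sum_congr rfl; intro i _
    rw [Finset.mul_sum, ← Finset.sum_add_distrib]
    apply Finset.sum_congr rfl; intro j _
    ring
  have hsle : ∀ i ∈ P, s i ≤ σ := fun i hi => by
    rw [← hσs]; exact Finset.single_le_sum (fun i _ => hs i) hi
  have htle : ∀ j ∈ Pᶜ, t j ≤ σ := fun j hj => by
    rw [← hσt]; exact Finset.single_le_sum (fun i _ => ht i) hj
  have hS1le : S1 ≤ (M + R) * σ := by
    rcases hσ0.eq_or_lt with h0 | hpos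
    · have : S1 = 0 := by
        rw [hS1]
        apply Finset.sum_eq_zero; intro i hi
        apply Finset.sum_eq_zero; intro j hj
        have h1 : s i = 0 := le_antisymm (by rw [h0]; exact hsle i hi) (hs i)
        have h2 : t j = 0 := le_antisymm (by rw [h0]; exact htle j hj) (ht j)
        rw [h1, h2]; ring
      rw [this, ← h0, mul_zero]
    · have h1 : σ * S1 ≤ σ * ((M + R) * σ) := by
        calc σ * S1 = ∑ i ∈ P, ∑ j ∈ Pᶜ, σ * ((s i + t j) * r i j) := by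
              rw [hS1, Finset.mul_sum]
              apply Finset.sum_congr rfl; intro i _
              rw [Finset.mul_sum]
          _ ≤ ∑ i ∈ P, ∑ j ∈ Pᶜ, (σ * σ * r i j + s i * t j * M) := by
              apply Finset.sum_le_sum; intro i hi
              apply Finset.sum_le_sum; intro j hj
              have h2 : 0 ≤ (σ - s i) * (σ - t j) * r i j :=
                mul_nonneg (mul_nonneg (sub_nonneg.2 (hsle i hi)) (sub_nonneg.2 (htle j hj)))
                  (hr0 i hi j hj)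
              have h3 : 0 ≤ s i * t j * (M - r i j) :=
                mul_nonneg (mul_nonneg (hs i) (ht j)) (sub_nonneg.2 (hrM i hi j hj))
              nlinarith [h2, h3]
          _ = σ * ((M + R) * σ) := by
              have e1 : ∑ i ∈ P, ∑ j ∈ Pᶜ, (σ * σ * r i j + s i * t j * M)
                  = σ * σ * R + (∑ i ∈ P, s i) * (∑ j ∈ Pᶜ, t j) * M := by
                rw [hR, Finset.mul_sum, Finset.sum_mul_sum, Finset.sum_mul,
                  ← Finset.sum_add_distrib]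
                apply Finset.sum_congr rfl; intro i _
                rw [Finset.mul_sum, Finset.sum_mul, ← Finset.sum_add_distrib]
              rw [e1, hσs, hσt]; ring
      exact le_of_mul_le_mul_left h1 hpos
  have hdR : (p + q) * (d * R) ≤ (M + R) * (p * q * d) := by
    have h1 : (p - 1) * (q - 1) ≥ 0 := mul_nonneg (by linarith) (by linarith)
    have h2 : R * (p + q - p * q) ≤ M * (p * q) := by nlinarith
    nlinarith [mul_le_mul_of_nonneg_left h2 hd]
  have hpq : 0 < p + q := by linarith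
  have h5 : (p + q) * (d * R + S1) ≤ (p + q) * ((M + R) * N) := by
    calc (p + q) * (d * R + S1) = (p + q) * (d * R) + (p + q) * S1 := by ring
      _ ≤ (M + R) * (p * q * d) + (p + q) * ((M + R) * σ) :=
          add_le_add hdR (mul_le_mul_of_nonneg_left hS1le hpq.le)
      _ = (M + R) * (p * q * d + (p + q) * σ) := by ring
      _ ≤ (M + R) * ((p + q) * N) := mul_le_mul_of_nonneg_left hN (by linarith)
      _ = _ := by ring
  rw [hsplit]
  exact le_of_mul_le_mul_left h5 hpq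

/-- The coordinate form of the bound. -/
lemma quad_coord {κ : Type*} [Fintype κ] (X : Matrix n n ℂ) (P : Finset n) (a b : ℂ)
    (h1 : ∀ i, ∀ k ∈ P, X i k = if i = k then a else 0)
    (h2 : ∀ j ∈ Pᶜ, ∀ l, X j l = if j = l then b else 0)
    (h4 : ∀ i ∈ P, ∀ k ∈ P, i ≠ k → (X * Xᴴ) i k = 0)
    (h5 : ∀ j ∈ Pᶜ, ∀ l ∈ Pᶜ, j ≠ l → (Xᴴ * X) j l = 0)
    (C : κ → Matrix n n ℂ) (M : ℝ) (hM0 : 0 ≤ M)
    (horth : ∀ a b, a ≠ b → ((C a)ᴴ * C b).trace = 0) (hM : ∀ a, N2 (C a) ≤ M) :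
    ∑ a, N2 (X * C a - C a * X) ≤ (2 * M + ∑ a, N2 (C a)) * N2 X := by
  classical
  set s : n → ℝ := fun i => ∑ j ∈ Pᶜ, ‖X i j‖ ^ 2 with hs
  set t : n → ℝ := fun j => ∑ i ∈ P, ‖X i j‖ ^ 2 with ht
  set d : ℝ := ‖a - b‖ ^ 2 with hd
  set W : n → n → Matrix n n ℂ :=
    fun i j => Xᴴ * Matrix.single i j 1 - Matrix.single i j 1 * Xᴴ with hW
  set V : n → n → Matrix n n ℂ :=
    fun i j => X * Matrix.single i j 1 - Matrix.single i j 1 * X with hV
  have hs0 : ∀ i, 0 ≤ s i := fun i => Finset.sum_nonneg fun _ _ => by positivity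
  have ht0 : ∀ i, 0 ≤ t i := fun i => Finset.sum_nonneg fun _ _ => by positivity
  have hd0 : 0 ≤ d := by positivity
  have hmc : ∀ z : ℂ, z * star z = ((‖z‖ ^ 2 : ℝ) : ℂ) := by
    intro z
    rw [Complex.star_def, Complex.mul_conj, Complex.normSq_eq_norm_sq]
  have hXX : ∀ i ∈ P, (X * Xᴴ) i i = ((‖a‖ ^ 2 + s i : ℝ) : ℂ) := by
    intro i hi
    have e1 : (X * Xᴴ) i i = ((∑ j, ‖X i j‖ ^ 2 : ℝ) : ℂ) := by
      rw [Matrix.mul_apply, Complex.ofReal_sum]
      apply Finset.sum_congr rfl; intro j _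
      rw [Matrix.conjTranspose_apply, hmc]
    rw [e1]
    congr 1
    rw [← Finset.sum_add_sum_compl P]
    congr 1
    rw [Finset.sum_eq_single i]
    · rw [h1 i i hi, if_pos rfl]
    · intro j hj hji
      rw [h1 i j hj, if_neg (Ne.symm hji)]; simp
    · intro h; exact absurd hi h
  have hXX' : ∀ j ∈ Pᶜ, (Xᴴ * X) j j = ((‖b‖ ^ 2 + t j : ℝ) : ℂ) := by
    intro j hj
    have e1 : (Xᴴ * X) j j = ((∑ i, ‖X i j‖ ^ 2 : ℝ) : ℂ) := by
      rw [Matrix.mul_apply, Complex.ofReal_sum]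
      apply Finset.sum_congr rfl; intro i _
      rw [Matrix.conjTranspose_apply, mul_comm, hmc]
    rw [e1]
    congr 1
    rw [← Finset.sum_add_sum_compl P, add_comm]
    congr 1
    rw [Finset.sum_eq_single j]
    · rw [h2 j hj j, if_pos rfl]
    · intro i hi hij
      rw [h2 i hi j, if_neg hij]; simp
    · intro h; exact absurd hj h
  have hform : ∀ i ∈ P, ∀ k ∈ P, ∀ j ∈ Pᶜ, ∀ l ∈ Pᶜ,
      (X * Xᴴ) i k * (1 : Matrix n n ℂ) l j - X i k * Xᴴ l j - Xᴴ i k * X l j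
        + (1 : Matrix n n ℂ) i k * (Xᴴ * X) l j
        = if i = k ∧ j = l then ((d + s i + t j : ℝ) : ℂ) else 0 := by
    intro i hi k hk j hj l hl
    have e1 : X i k = if i = k then a else 0 := h1 i k hk
    have e2 : Xᴴ l j = if l = j then star b else 0 := by
      rw [Matrix.conjTranspose_apply, h2 j hj l]
      by_cases h : j = l
      · simp [h]
      · simp [h, Ne.symm h]
    have e3 : Xᴴ i k = if i = k then star a else 0 := by
      rw [Matrix.conjTranspose_apply, h1 k i hi]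
      by_cases h : i = k
      · simp [h]
      · simp [h, Ne.symm h]
    have e4 : X l j = if l = j then b else 0 := h2 l hl j
    rw [e1, e2, e3, e4]
    by_cases hik : i = k
    · by_cases hjl : j = l
      · subst hik; subst hjl
        rw [if_pos rfl, if_pos rfl, if_pos rfl, if_pos rfl, if_pos ⟨rfl, rfl⟩, hXX i hi,
          hXX' j hj, Matrix.one_apply_eq, Matrix.one_apply_eq, mul_one, one_mul]
        have e5 : ((d : ℝ) : ℂ) = (a - b) * star (a - b) := by rw [hmc]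
        push_cast
        rw [e5]
        have e6 : ((‖a‖ : ℂ) ^ 2) = a * star a := by rw [hmc]; push_cast; rfl
        have e7 : ((‖b‖ : ℂ) ^ 2) = b * star b := by rw [hmc]; push_cast; rfl
        rw [e6, e7, star_sub]
        ring
      · subst hik
        rw [if_neg (Ne.symm hjl), if_neg (Ne.symm hjl),
          if_neg (show ¬ (i = i ∧ j = l) from fun h => hjl h.2), Matrix.one_apply_ne (Ne.symm hjl), h5 l hl j hj (Ne.symm hjl)]
        simp
    · rw [if_neg hik, if_neg hik, if_neg (show ¬ (i = k ∧ j = l) from fun h => hik h.1),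
        Matrix.one_apply_ne hik,
        h4 i hi k hk hik]
      simp
  -- the adjoint family
  have hWtr : ∀ i j (Y : Matrix n n ℂ), ((W i j)ᴴ * Y).trace = (X * Y - Y * X) i j := by
    intro i j Y
    rw [hW]
    show ((Xᴴ * Matrix.single i j 1 - Matrix.single i j 1 * Xᴴ)ᴴ * Y).trace = _
    rw [trace_adj, trace_single_conj]
  have hVtr : ∀ i j (Y : Matrix n n ℂ), ((V i j)ᴴ * Y).trace = (Xᴴ * Y - Y * Xᴴ) i j := by
    intro i j Y
    have := trace_adj Xᴴ (Matrix.single i j 1) Y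
    rw [Matrix.conjTranspose_conjTranspose] at this
    rw [hV]
    show ((X * Matrix.single i j 1 - Matrix.single i j 1 * X)ᴴ * Y).trace = _
    rw [this, trace_single_conj]
  have hWW : ∀ i ∈ P, ∀ k ∈ P, ∀ j ∈ Pᶜ, ∀ l ∈ Pᶜ, ((W i j)ᴴ * W k l).trace
      = if i = k ∧ j = l then ((d + s i + t j : ℝ) : ℂ) else 0 := by
    intro i hi k hk j hj l hl
    rw [hWtr, ← hform i hi k hk j hj l hl]
    have e : X * W k l - W k l * X
        = X * Xᴴ * Matrix.single k l 1 * 1 - X * Matrix.single k l 1 * Xᴴ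
          - Xᴴ * Matrix.single k l 1 * X + 1 * Matrix.single k l 1 * (Xᴴ * X) := by
      simp only [hW, Matrix.mul_sub, Matrix.sub_mul, Matrix.mul_one, Matrix.one_mul,
        Matrix.mul_assoc]
      abel
    rw [e, Matrix.add_apply, Matrix.sub_apply, Matrix.sub_apply, single_sandwich, single_sandwich,
      single_sandwich, single_sandwich]
  have hVV : ∀ i ∈ P, ∀ k ∈ P, ∀ j ∈ Pᶜ, ∀ l ∈ Pᶜ, ((V l k)ᴴ * V j i).trace
      = if i = k ∧ j = l then ((d + s i + t j : ℝ) : ℂ) else 0 := by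
    intro i hi k hk j hj l hl
    rw [hVtr, ← hform i hi k hk j hj l hl]
    have e : Xᴴ * V j i - V j i * Xᴴ
        = Xᴴ * X * Matrix.single j i 1 * 1 - Xᴴ * Matrix.single j i 1 * X
          - X * Matrix.single j i 1 * Xᴴ + 1 * Matrix.single j i 1 * (X * Xᴴ) := by
      simp only [hV, Matrix.mul_sub, Matrix.sub_mul, Matrix.mul_one, Matrix.one_mul,
        Matrix.mul_assoc]
      abel
    rw [e, Matrix.add_apply, Matrix.sub_apply, Matrix.sub_apply, single_sandwich, single_sandwich,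
      single_sandwich, single_sandwich]
    ring
  have hNW : ∀ i ∈ P, ∀ j ∈ Pᶜ, N2 (W i j) = d + s i + t j := by
    intro i hi j hj
    rw [N2_eq, hWW i hi i hi j hj j hj, if_pos ⟨rfl, rfl⟩, Complex.ofReal_re]
  have hNV : ∀ i ∈ P, ∀ j ∈ Pᶜ, N2 (V j i) = d + s i + t j := by
    intro i hi j hj
    rw [N2_eq, hVV i hi i hi j hj j hj, if_pos ⟨rfl, rfl⟩, Complex.ofReal_re]
  -- entries of commutators
  have hA : ∀ Y : Matrix n n ℂ, (∀ k ∈ Pᶜ, ∀ l ∈ P, Y k l = 0) →
      (∀ i ∈ P, ∀ j ∈ P, (X * Y - Y * X) i j = 0) ∧ (∀ i ∈ Pᶜ, ∀ j, (X * Y - Y * X) i j = 0) := by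
    intro Y hY
    have hYX : ∀ i, ∀ j ∈ P, (Y * X) i j = Y i j * a := by
      intro i j hj
      rw [Matrix.mul_apply, Finset.sum_eq_single j]
      · rw [h1 j j hj, if_pos rfl]
      · intro k _ hk
        rw [h1 k j hj, if_neg hk, mul_zero]
      · intro h; exact absurd (Finset.mem_univ j) h
    have hXY : ∀ i ∈ Pᶜ, ∀ j, (X * Y) i j = b * Y i j := by
      intro i hi j
      rw [Matrix.mul_apply, Finset.sum_eq_single i]
      · rw [h2 i hi i, if_pos rfl]
      · intro k _ hk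
        rw [h2 i hi k, if_neg (Ne.symm hk), zero_mul]
      · intro h; exact absurd (Finset.mem_univ i) h
    constructor
    · intro i hi j hj
      rw [Matrix.sub_apply, hYX i j hj, Matrix.mul_apply, Finset.sum_eq_single i]
      · rw [h1 i i hi, if_pos rfl]; ring
      · intro k _ hk
        by_cases hkP : k ∈ P
        · rw [h1 i k hkP, if_neg (Ne.symm hk), zero_mul]
        · rw [hY k (Finset.mem_compl.2 hkP) j hj, mul_zero]
      · intro h; exact absurd (Finset.mem_univ i) h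
    · intro i hi j
      rw [Matrix.sub_apply, hXY i hi j]
      by_cases hjP : j ∈ P
      · rw [hYX i j hjP, hY i hi j hjP]; ring
      · rw [Matrix.mul_apply, Finset.sum_eq_single j]
        · rw [h2 j (Finset.mem_compl.2 hjP) j, if_pos rfl]; ring
        · intro k _ hk
          by_cases hkP : k ∈ P
          · rw [hY i hi k hkP, zero_mul]
          · rw [h2 k (Finset.mem_compl.2 hkP) j, if_neg hk, mul_zero]
        · intro h; exact absurd (Finset.mem_univ j) h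
  have hdec : ∀ Y : Matrix n n ℂ, N2 (X * Y - Y * X)
      = ∑ i ∈ P, ∑ j ∈ Pᶜ, (d + s i + t j) * ‖Y j i‖ ^ 2
        + ∑ i ∈ P, ∑ j ∈ Pᶜ, ‖(X * Y - Y * X) i j‖ ^ 2 := by
    intro Y
    set D : Matrix n n ℂ := Matrix.of fun k l => if k ∈ Pᶜ ∧ l ∈ P then Y k l else 0 with hD
    have hDin : ∀ k ∈ Pᶜ, ∀ l ∈ P, D k l = Y k l := by
      intro k hk l hl
      rw [hD, Matrix.of_apply, if_pos ⟨hk, hl⟩]
    have hDout : ∀ k l, ¬ (k ∈ Pᶜ ∧ l ∈ P) → D k l = 0 := by
      intro k l h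
      rw [hD, Matrix.of_apply, if_neg h]
    have hB : ∀ i ∈ P, ∀ j ∈ Pᶜ, (X * D - D * X) i j = 0 := by
      intro i hi j hj
      rw [Matrix.sub_apply, Matrix.mul_apply, Matrix.mul_apply, Finset.sum_eq_zero,
        Finset.sum_eq_zero, sub_zero]
      · intro k _
        rw [hDout i k (fun h => (Finset.mem_compl.1 h.1) hi), zero_mul]
      · intro k _
        rw [hDout k j (fun h => (Finset.mem_compl.1 hj) h.2), mul_zero]
    have hC' := hA (Y - D) (by
      intro k hk l hl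
      rw [Matrix.sub_apply, hDin k hk l hl, sub_self])
    have hsub : ∀ i j, (X * (Y - D) - (Y - D) * X) i j
        = (X * Y - Y * X) i j - (X * D - D * X) i j := by
      intro i j
      rw [Matrix.mul_sub, Matrix.sub_mul]
      simp only [Matrix.sub_apply]
      ring
    have hPP : ∀ i ∈ P, ∀ j ∈ P, (X * Y - Y * X) i j = (X * D - D * X) i j := by
      intro i hi j hj
      have := hC'.1 i hi j hj
      rw [hsub] at this
      exact sub_eq_zero.1 this
    have hQ : ∀ i ∈ Pᶜ, ∀ j, (X * Y - Y * X) i j = (X * D - D * X) i j := by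
      intro i hi j
      have := hC'.2 i hi j
      rw [hsub] at this
      exact sub_eq_zero.1 this
    have hND : N2 (X * D - D * X) = ∑ i ∈ P, ∑ j ∈ Pᶜ, (d + s i + t j) * ‖Y j i‖ ^ 2 := by
      set V' : n × n → Matrix n n ℂ :=
        fun p => if p.1 ∈ Pᶜ ∧ p.2 ∈ P then V p.1 p.2 else 0 with hV'
      have hlin : X * D - D * X = ∑ p : n × n, D p.1 p.2 • V' p := by
        have e1 : D = ∑ p : n × n, D p.1 p.2 • Matrix.single p.1 p.2 (1:ℂ) := by
          conv_lhs => rw [Matrix.matrix_eq_sum_single D]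
          rw [Fintype.sum_prod_type]
          simp [Matrix.smul_single]
        have e2 : X * D - D * X = ∑ p : n × n, D p.1 p.2 • V p.1 p.2 := by
          conv_lhs => rw [e1]
          simp only [Matrix.mul_sum, Matrix.sum_mul, ← Finset.sum_sub_distrib, Matrix.mul_smul,
            Matrix.smul_mul, ← smul_sub, hV]
        rw [e2]
        apply Finset.sum_congr rfl; intro p _
        by_cases hp : p.1 ∈ Pᶜ ∧ p.2 ∈ P
        · rw [hV']
          simp only [if_pos hp]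
        · rw [hDout p.1 p.2 hp, zero_smul, zero_smul]
      rw [hlin, N2_lincomb]
      · rw [Fintype.sum_prod_type, split4 P]
        have z1 : ∑ i ∈ P, ∑ j ∈ P, ‖D i j‖ ^ 2 * N2 (V' (i, j)) = 0 := by
          apply Finset.sum_eq_zero; intro i hi
          apply Finset.sum_eq_zero; intro j _
          rw [hDout i j (fun h => (Finset.mem_compl.1 h.1) hi)]; simp
        have z2 : ∑ i ∈ P, ∑ j ∈ Pᶜ, ‖D i j‖ ^ 2 * N2 (V' (i, j)) = 0 := by
          apply Finset.sum_eq_zero; intro i hi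
          apply Finset.sum_eq_zero; intro j _
          rw [hDout i j (fun h => (Finset.mem_compl.1 h.1) hi)]; simp
        have z3 : ∑ i ∈ Pᶜ, ∑ j ∈ Pᶜ, ‖D i j‖ ^ 2 * N2 (V' (i, j)) = 0 := by
          apply Finset.sum_eq_zero; intro i _
          apply Finset.sum_eq_zero; intro j hj
          rw [hDout i j (fun h => (Finset.mem_compl.1 hj) h.2)]; simp
        rw [z1, z2, z3, zero_add, zero_add, add_zero, Finset.sum_comm]
        apply Finset.sum_congr rfl; intro i hi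
        apply Finset.sum_congr rfl; intro j hj
        have e3 : V' (j, i) = V j i := by
          rw [hV']; simp only [if_pos (⟨hj, hi⟩ : j ∈ Pᶜ ∧ i ∈ P)]
        rw [hDin j hj i hi, e3, hNV i hi j hj, mul_comm]
      · intro p q hpq
        by_cases hp : p.1 ∈ Pᶜ ∧ p.2 ∈ P
        · by_cases hq : q.1 ∈ Pᶜ ∧ q.2 ∈ P
          · have e3 : V' p = V p.1 p.2 := by rw [hV']; simp only [if_pos hp]
            have e4 : V' q = V q.1 q.2 := by rw [hV']; simp only [if_pos hq]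
            rw [e3, e4, hVV q.2 hq.2 p.2 hp.2 q.1 hq.1 p.1 hp.1, if_neg]
            intro h
            exact hpq (Prod.ext h.2.symm h.1.symm)
          · have e4 : V' q = 0 := by rw [hV']; simp only [if_neg hq]
            rw [e4, Matrix.mul_zero, Matrix.trace_zero]
        · have e4 : V' p = 0 := by rw [hV']; simp only [if_neg hp]
          rw [e4, Matrix.conjTranspose_zero, Matrix.zero_mul, Matrix.trace_zero]
    rw [← hND]
    unfold N2
    rw [split4 P, split4 P (fun i j => ‖(X * D - D * X) i j‖ ^ 2)]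
    have y1 : ∑ i ∈ P, ∑ j ∈ P, ‖(X * Y - Y * X) i j‖ ^ 2
        = ∑ i ∈ P, ∑ j ∈ P, ‖(X * D - D * X) i j‖ ^ 2 :=
      Finset.sum_congr rfl fun i hi => Finset.sum_congr rfl fun j hj => by rw [hPP i hi j hj]
    have y2 : ∑ i ∈ Pᶜ, ∑ j ∈ P, ‖(X * Y - Y * X) i j‖ ^ 2
        = ∑ i ∈ Pᶜ, ∑ j ∈ P, ‖(X * D - D * X) i j‖ ^ 2 :=
      Finset.sum_congr rfl fun i hi => Finset.sum_congr rfl fun j hj => by rw [hQ i hi j]
    have y3 : ∑ i ∈ Pᶜ, ∑ j ∈ Pᶜ, ‖(X * Y - Y * X) i j‖ ^ 2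
        = ∑ i ∈ Pᶜ, ∑ j ∈ Pᶜ, ‖(X * D - D * X) i j‖ ^ 2 :=
      Finset.sum_congr rfl fun i hi => Finset.sum_congr rfl fun j hj => by rw [hQ i hi j]
    have y4 : ∑ i ∈ P, ∑ j ∈ Pᶜ, ‖(X * D - D * X) i j‖ ^ 2 = 0 := by
      apply Finset.sum_eq_zero; intro i hi
      apply Finset.sum_eq_zero; intro j hj
      rw [hB i hi j hj]; simp
    rw [y1, y2, y3, y4]
    ring
  -- the second Bessel inequality
  have hbes : ∀ Y : Matrix n n ℂ,
      ∑ i ∈ P, ∑ j ∈ Pᶜ, ‖Y j i‖ ^ 2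
        + ∑ i ∈ P, ∑ j ∈ Pᶜ, ‖(X * Y - Y * X) i j‖ ^ 2 / (d + s i + t j) ≤ N2 Y := by
    intro Y
    set G : n × n → Matrix n n ℂ := fun p =>
      if p.1 ∈ P ∧ p.2 ∈ Pᶜ then W p.1 p.2
      else if p.1 ∈ Pᶜ ∧ p.2 ∈ P then Matrix.single p.1 p.2 1 else 0 with hG
    have hG1 : ∀ i ∈ P, ∀ j ∈ Pᶜ, G (i, j) = W i j := by
      intro i hi j hj
      rw [hG]; simp only [if_pos (⟨hi, hj⟩ : i ∈ P ∧ j ∈ Pᶜ)]
    have hG2 : ∀ i ∈ Pᶜ, ∀ j ∈ P, G (i, j) = Matrix.single i j 1 := by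
      intro i hi j hj
      have h3 : ¬ (i ∈ P ∧ j ∈ Pᶜ) := fun h => (Finset.mem_compl.1 hi) h.1
      rw [hG]
      simp only [if_neg h3, if_pos (⟨hi, hj⟩ : i ∈ Pᶜ ∧ j ∈ P)]
    have hG3 : ∀ i ∈ P, ∀ j ∈ P, G (i, j) = 0 := by
      intro i hi j hj
      have h3 : ¬ (i ∈ P ∧ j ∈ Pᶜ) := fun h => (Finset.mem_compl.1 h.2) hj
      have h4 : ¬ (i ∈ Pᶜ ∧ j ∈ P) := fun h => (Finset.mem_compl.1 h.1) hi
      rw [hG]
      simp only [if_neg h3, if_neg h4]
    have hG4 : ∀ i ∈ Pᶜ, ∀ j ∈ Pᶜ, G (i, j) = 0 := by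
      intro i hi j hj
      have h3 : ¬ (i ∈ P ∧ j ∈ Pᶜ) := fun h => (Finset.mem_compl.1 hi) h.1
      have h4 : ¬ (i ∈ Pᶜ ∧ j ∈ P) := fun h => (Finset.mem_compl.1 hj) h.2
      rw [hG]
      simp only [if_neg h3, if_neg h4]
    have hWS : ∀ i ∈ P, ∀ j ∈ Pᶜ, ∀ k ∈ Pᶜ, ∀ l ∈ P,
        ((W i j)ᴴ * Matrix.single k l 1).trace = 0 := by
      intro i hi j hj k hk l hl
      rw [hWtr]
      have e : X * Matrix.single k l 1 - Matrix.single k l 1 * X
          = X * Matrix.single k l 1 * 1 - 1 * Matrix.single k l 1 * X := by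
        rw [Matrix.mul_one, Matrix.one_mul]
      have hik : i ≠ k := fun h => (Finset.mem_compl.1 hk) (h ▸ hi)
      have hlj : l ≠ j := fun h => (Finset.mem_compl.1 hj) (h ▸ hl)
      rw [e, Matrix.sub_apply, single_sandwich, single_sandwich, Matrix.one_apply_ne hlj,
        Matrix.one_apply_ne hik]
      ring
    have hGorth : ∀ p q, p ≠ q → ((G p)ᴴ * G q).trace = 0 := by
      rintro ⟨i, j⟩ ⟨k, l⟩ hpq
      by_cases hi : i ∈ P
      · by_cases hj : j ∈ P
        · rw [hG3 i hi j hj, Matrix.conjTranspose_zero, Matrix.zero_mul, Matrix.trace_zero]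
        · have hj' := Finset.mem_compl.2 hj
          by_cases hk : k ∈ P
          · by_cases hl : l ∈ P
            · rw [hG3 k hk l hl, Matrix.mul_zero, Matrix.trace_zero]
            · have hl' := Finset.mem_compl.2 hl
              rw [hG1 i hi j hj', hG1 k hk l hl', hWW i hi k hk j hj' l hl', if_neg]
              intro h
              exact hpq (Prod.ext h.1 h.2)
          · have hk' := Finset.mem_compl.2 hk
            by_cases hl : l ∈ P
            · rw [hG1 i hi j hj', hG2 k hk' l hl]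
              exact hWS i hi j hj' k hk' l hl
            · rw [hG4 k hk' l (Finset.mem_compl.2 hl), Matrix.mul_zero, Matrix.trace_zero]
      · have hi' := Finset.mem_compl.2 hi
        by_cases hj : j ∈ P
        · by_cases hk : k ∈ P
          · by_cases hl : l ∈ P
            · rw [hG3 k hk l hl, Matrix.mul_zero, Matrix.trace_zero]
            · have hl' := Finset.mem_compl.2 hl
              rw [hG2 i hi' j hj, hG1 k hk l hl']
              have e := norm_trace_symm (W k l) (Matrix.single i j (1:ℂ))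
              rw [hWS k hk l hl' i hi' j hj, norm_zero] at e
              exact norm_eq_zero.1 e
          · have hk' := Finset.mem_compl.2 hk
            by_cases hl : l ∈ P
            · rw [hG2 i hi' j hj, hG2 k hk' l hl, trace_single_conj]
              by_cases h : k = i ∧ l = j
              · exact absurd (Prod.ext h.1.symm h.2.symm) hpq
              · rw [Matrix.single_apply, if_neg h]
            · rw [hG4 k hk' l (Finset.mem_compl.2 hl), Matrix.mul_zero, Matrix.trace_zero]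
        · rw [hG4 i hi' j (Finset.mem_compl.2 hj), Matrix.conjTranspose_zero, Matrix.zero_mul,
            Matrix.trace_zero]
    have hb := bessel_two G hGorth Y
    rw [Fintype.sum_prod_type, split4 P] at hb
    have y1 : ∑ i ∈ P, ∑ j ∈ P, ‖((G (i, j))ᴴ * Y).trace‖ ^ 2 / N2 (G (i, j)) = 0 := by
      apply Finset.sum_eq_zero; intro i hi
      apply Finset.sum_eq_zero; intro j hj
      rw [hG3 i hi j hj]; simp
    have y2 : ∑ i ∈ Pᶜ, ∑ j ∈ Pᶜ, ‖((G (i, j))ᴴ * Y).trace‖ ^ 2 / N2 (G (i, j)) = 0 := by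
      apply Finset.sum_eq_zero; intro i hi
      apply Finset.sum_eq_zero; intro j hj
      rw [hG4 i hi j hj]; simp
    have y3 : ∑ i ∈ P, ∑ j ∈ Pᶜ, ‖((G (i, j))ᴴ * Y).trace‖ ^ 2 / N2 (G (i, j))
        = ∑ i ∈ P, ∑ j ∈ Pᶜ, ‖(X * Y - Y * X) i j‖ ^ 2 / (d + s i + t j) := by
      apply Finset.sum_congr rfl; intro i hi
      apply Finset.sum_congr rfl; intro j hj
      rw [hG1 i hi j hj, hWtr, hNW i hi j hj]
    have y4 : ∑ i ∈ Pᶜ, ∑ j ∈ P, ‖((G (i, j))ᴴ * Y).trace‖ ^ 2 / N2 (G (i, j))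
        = ∑ i ∈ P, ∑ j ∈ Pᶜ, ‖Y j i‖ ^ 2 := by
      rw [Finset.sum_comm]
      apply Finset.sum_congr rfl; intro i hi
      apply Finset.sum_congr rfl; intro j hj
      have e : N2 (Matrix.single j i (1:ℂ)) = 1 := by
        rw [N2_eq, trace_single_conj]; simp
      rw [hG2 j hj i hi, trace_single_conj, e, div_one]
    rw [y1, y2, y3, y4] at hb
    linarith
  -- final count
  set σ : ℝ := ∑ i ∈ P, s i with hσ
  have hσt : ∑ j ∈ Pᶜ, t j = σ := by
    rw [hσ, hs, ht]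
    exact Finset.sum_comm
  have hNX : N2 X = (P.card : ℝ) * ‖a‖ ^ 2 + σ + (Pᶜ.card : ℝ) * ‖b‖ ^ 2 := by
    unfold N2
    rw [split4 P]
    have y1 : ∑ i ∈ P, ∑ j ∈ P, ‖X i j‖ ^ 2 = (P.card : ℝ) * ‖a‖ ^ 2 := by
      have : ∀ i ∈ P, ∑ j ∈ P, ‖X i j‖ ^ 2 = ‖a‖ ^ 2 := by
        intro i hi
        rw [Finset.sum_eq_single i]
        · rw [h1 i i hi, if_pos rfl]
        · intro j hj hji
          rw [h1 i j hj, if_neg (Ne.symm hji)]; simp
        · intro h; exact absurd hi h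
      rw [Finset.sum_congr rfl this, Finset.sum_const, nsmul_eq_mul]
    have y2 : ∑ i ∈ Pᶜ, ∑ j ∈ P, ‖X i j‖ ^ 2 = 0 := by
      apply Finset.sum_eq_zero; intro i hi
      apply Finset.sum_eq_zero; intro j hj
      have hij : i ≠ j := fun h => (Finset.mem_compl.1 hi) (h ▸ hj)
      rw [h2 i hi j, if_neg hij]; simp
    have y3 : ∑ i ∈ Pᶜ, ∑ j ∈ Pᶜ, ‖X i j‖ ^ 2 = (Pᶜ.card : ℝ) * ‖b‖ ^ 2 := by
      have : ∀ i ∈ Pᶜ, ∑ j ∈ Pᶜ, ‖X i j‖ ^ 2 = ‖b‖ ^ 2 := by
        intro i hi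
        rw [Finset.sum_eq_single i]
        · rw [h2 i hi i, if_pos rfl]
        · intro j hj hji
          rw [h2 i hi j, if_neg (Ne.symm hji)]; simp
        · intro h; exact absurd hi h
      rw [Finset.sum_congr rfl this, Finset.sum_const, nsmul_eq_mul]
    rw [y1, y2, y3, hσ, hs]
    ring
  have hNd : (P.card : ℝ) * (Pᶜ.card : ℝ) * d + ((P.card : ℝ) + (Pᶜ.card : ℝ)) * σ
      ≤ ((P.card : ℝ) + (Pᶜ.card : ℝ)) * N2 X := by
    rw [hNX, hd]
    set p : ℝ := (P.card : ℝ)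
    set q : ℝ := (Pᶜ.card : ℝ)
    rw [← Complex.normSq_eq_norm_sq, ← Complex.normSq_eq_norm_sq, ← Complex.normSq_eq_norm_sq,
      Complex.normSq_apply, Complex.normSq_apply, Complex.normSq_apply, Complex.sub_re,
      Complex.sub_im]
    nlinarith [sq_nonneg (p * a.re + q * b.re), sq_nonneg (p * a.im + q * b.im)]
  set r1 : n → n → ℝ := fun i j => ∑ c, ‖C c j i‖ ^ 2 with hr1
  set r2 : n → n → ℝ :=
    fun i j => (∑ c, ‖(X * C c - C c * X) i j‖ ^ 2) / (d + s i + t j) with hr2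
  have hτ0 : ∀ i j, 0 ≤ d + s i + t j := fun i j => by
    have := hs0 i; have := ht0 j; linarith
  have hnum : ∀ i ∈ P, ∀ j ∈ Pᶜ, ∑ c, ‖(X * C c - C c * X) i j‖ ^ 2 ≤ M * (d + s i + t j) := by
    intro i hi j hj
    have := bessel_gen C M hM0 horth hM (W i j)
    rw [hNW i hi j hj] at this
    simpa only [hWtr] using this
  have hb1 := comb_quad P s t hs0 ht0 σ d M (N2 X) hσ.symm hσt hd0 hM0 (N2_nonneg X) hNd r1
    (fun i _ j _ => Finset.sum_nonneg fun _ _ => by positivity)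
    (fun i _ j _ => bessel C M hM0 horth hM j i)
  have hb2 := comb_quad P s t hs0 ht0 σ d M (N2 X) hσ.symm hσt hd0 hM0 (N2_nonneg X) hNd r2
    (fun i _ j _ => div_nonneg (Finset.sum_nonneg fun _ _ => by positivity) (hτ0 i j))
    (fun i hi j hj => by
      rcases (hτ0 i j).eq_or_lt with h0 | hpos
      · rw [hr2]
        simp only
        rw [← h0, div_zero]; exact hM0
      · rw [hr2]
        simp only
        rw [div_le_iff₀ hpos]
        exact hnum i hi j hj)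
  have hR : ∑ i ∈ P, ∑ j ∈ Pᶜ, r1 i j + ∑ i ∈ P, ∑ j ∈ Pᶜ, r2 i j ≤ ∑ c, N2 (C c) := by
    have e1 : ∑ i ∈ P, ∑ j ∈ Pᶜ, r1 i j = ∑ c, ∑ i ∈ P, ∑ j ∈ Pᶜ, ‖C c j i‖ ^ 2 :=
      (swap3' P Pᶜ (fun c i j => ‖C c j i‖ ^ 2)).symm
    have e2 : ∑ i ∈ P, ∑ j ∈ Pᶜ, r2 i j
        = ∑ c, ∑ i ∈ P, ∑ j ∈ Pᶜ, ‖(X * C c - C c * X) i j‖ ^ 2 / (d + s i + t j) := by
      rw [swap3' P Pᶜ]
      apply Finset.sum_congr rfl; intro i _
      apply Finset.sum_congr rfl; intro j _
      rw [hr2]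
      simp only
      rw [Finset.sum_div]
    rw [e1, e2, ← Finset.sum_add_distrib]
    exact Finset.sum_le_sum fun c _ => hbes (C c)
  have hLHS : ∑ c, N2 (X * C c - C c * X)
      = ∑ i ∈ P, ∑ j ∈ Pᶜ, (d + s i + t j) * r1 i j
        + ∑ i ∈ P, ∑ j ∈ Pᶜ, (d + s i + t j) * r2 i j := by
    simp_rw [hdec]
    rw [Finset.sum_add_distrib]
    congr 1
    · rw [swap3' P Pᶜ]
      apply Finset.sum_congr rfl; intro i _
      apply Finset.sum_congr rfl; intro j _
      rw [hr1, Finset.mul_sum]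
    · rw [swap3' P Pᶜ]
      apply Finset.sum_congr rfl; intro i hi
      apply Finset.sum_congr rfl; intro j hj
      rcases (hτ0 i j).eq_or_lt with h0 | hpos
      · have h3 := hnum i hi j hj
        rw [← h0, mul_zero] at h3
        rw [← h0, zero_mul]
        exact le_antisymm h3 (Finset.sum_nonneg fun _ _ => by positivity)
      · rw [hr2]
        simp only
        rw [mul_div_cancel₀ _ hpos.ne']
  rw [hLHS]
  calc _ ≤ (M + ∑ i ∈ P, ∑ j ∈ Pᶜ, r1 i j) * N2 X + (M + ∑ i ∈ P, ∑ j ∈ Pᶜ, r2 i j) * N2 X :=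
        add_le_add hb1 hb2
    _ = (2 * M + (∑ i ∈ P, ∑ j ∈ Pᶜ, r1 i j + ∑ i ∈ P, ∑ j ∈ Pᶜ, r2 i j)) * N2 X := by ring
    _ ≤ _ := mul_le_mul_of_nonneg_right (by linarith) (N2_nonneg X)

end Pool.H629LW
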