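import Mathlib
import Pool.Agent.H629LW.Quad

set_option autoImplicit false

/-!
# The exact bound for matrices annihilated by a quadratic polynomial: reduction to coordinates
-/

namespace Pool.H629LW

open Finset Matrix
open scoped ComplexOrder

variable {n : Type*} [Fintype n] [DecidableEq n]

/-- the projection on the kernel of a matrix, and its effect on matrices killed by it -/
lemma exists_proj (A : Matrix n n ℂ) : ∃ E : Matrix n n ℂ, Eᴴ = E ∧ E * E = E ∧ A * E = 0 ∧
    ∀ B : Matrix n n ℂ, A * B = 0 → E * B = B := by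
  set H : Matrix n n ℂ := Aᴴ * A with hHdef
  have hH : H.IsHermitian := Matrix.isHermitian_conjTranspose_mul_self A
  obtain ⟨K, hK, hKH, hHKH⟩ := pinv H hH
  set E : Matrix n n ℂ := 1 - K * H with hE
  have hEH : Eᴴ = E := by
    rw [hE, Matrix.conjTranspose_sub, Matrix.conjTranspose_one, Matrix.conjTranspose_mul, hK]
    rw [show Hᴴ = H from hH, hKH]
  have hP2 : K * H * (K * H) = K * H := by
    calc K * H * (K * H) = K * (H * K * H) := by simp only [Matrix.mul_assoc]
      _ = _ := by rw [hHKH]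
  have hE2 : E * E = E := by
    rw [hE, Matrix.mul_sub, Matrix.mul_one, Matrix.sub_mul, Matrix.one_mul, hP2]
    abel
  have hHE : H * E = 0 := by
    rw [hE, Matrix.mul_sub, Matrix.mul_one, ← Matrix.mul_assoc, hHKH, sub_self]
  refine ⟨E, hEH, hE2, ?_, ?_⟩
  · apply eq_zero_of_N2
    have h2 : N2 (A * E) = ((Eᴴ * (H * E)).trace).re := by
      rw [N2_eq, Matrix.conjTranspose_mul, hHdef]
      simp only [Matrix.mul_assoc]
    rw [h2, hHE, Matrix.mul_zero, Matrix.trace_zero, Complex.zero_re]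
  · intro B hB
    rw [hE, Matrix.sub_mul, Matrix.one_mul, hHdef]
    simp only [Matrix.mul_assoc]
    rw [hB]; simp

omit [DecidableEq n] in
lemma diag_self (A : Matrix n n ℂ) (i : n) : (Aᴴ * A) i i = ((∑ r, ‖A r i‖ ^ 2 : ℝ) : ℂ) := by
  rw [Matrix.mul_apply, Complex.ofReal_sum]
  apply Finset.sum_congr rfl; intro r _
  rw [Matrix.conjTranspose_apply, mul_comm, Complex.star_def, Complex.mul_conj,
    Complex.normSq_eq_norm_sq]

omit [DecidableEq n] in
lemma col_zero (A : Matrix n n ℂ) (i : n) (h : ∑ r, ‖A r i‖ ^ 2 ≤ 0) (r : n) : A r i = 0 := by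
  have h1 : ‖A r i‖ ^ 2 ≤ ∑ r, ‖A r i‖ ^ 2 :=
    Finset.single_le_sum (f := fun r => ‖A r i‖ ^ 2) (fun _ _ => by positivity)
      (Finset.mem_univ r)
  have h3 : ‖A r i‖ = 0 := by nlinarith [norm_nonneg (A r i)]
  simpa using h3

omit [DecidableEq n] in
lemma entry_congr (A A' B B' Z : Matrix n n ℂ) (i k : n) (hA : ∀ r, A r i = A' r i)
    (hB : ∀ r, B r k = B' r k) : (Aᴴ * Z * B) i k = (A'ᴴ * Z * B') i k := by
  simp only [Matrix.mul_apply, Matrix.conjTranspose_apply, hA, hB]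

/-- The bound for matrices annihilated by a quadratic polynomial. -/
theorem quad_main {κ : Type*} [Fintype κ] (X : Matrix n n ℂ) (a b : ℂ)
    (hX : (X - a • (1 : Matrix n n ℂ)) * (X - b • (1 : Matrix n n ℂ)) = 0)
    (C : κ → Matrix n n ℂ) (M : ℝ) (hM0 : 0 ≤ M)
    (horth : ∀ a b, a ≠ b → ((C a)ᴴ * C b).trace = 0) (hM : ∀ a, N2 (C a) ≤ M) :
    ∑ a, N2 (X * C a - C a * X) ≤ (2 * M + ∑ a, N2 (C a)) * N2 X := by
  classical
  obtain ⟨E, hEH, hE2, hAE, hEB⟩ := exists_proj (X - a • (1 : Matrix n n ℂ))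
  have hEB' := hEB _ hX
  have hXE : X * E = a • E := by
    rw [Matrix.sub_mul, Matrix.smul_mul, Matrix.one_mul] at hAE
    exact sub_eq_zero.1 hAE
  obtain ⟨F, hF⟩ : ∃ F : Matrix n n ℂ, F = 1 - E := ⟨_, rfl⟩
  have hEF : E * F = 0 := by rw [hF, Matrix.mul_sub, Matrix.mul_one, hE2, sub_self]
  have hFE : F * E = 0 := by rw [hF, Matrix.sub_mul, Matrix.one_mul, hE2, sub_self]
  have hF2 : F * F = F := by
    conv_lhs => rw [hF, Matrix.sub_mul, Matrix.one_mul, ← hF, hEF, sub_zero]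
  have hFH : Fᴴ = F := by rw [hF, Matrix.conjTranspose_sub, Matrix.conjTranspose_one, hEH]
  have hEFadd : E + F = 1 := by rw [hF]; abel
  have hFX : F * X = b • F := by
    have h1 : F * (X - b • (1 : Matrix n n ℂ)) = 0 := by
      rw [hF, Matrix.sub_mul, Matrix.one_mul, hEB', sub_self]
    rw [Matrix.mul_sub, Matrix.mul_smul, Matrix.mul_one] at h1
    exact sub_eq_zero.1 h1
  obtain ⟨x, hx⟩ : ∃ x : Matrix n n ℂ, x = E * X * F := ⟨_, rfl⟩
  have hEx : E * x = x := by rw [hx, ← Matrix.mul_assoc, ← Matrix.mul_assoc, hE2]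
  have hxF : x * F = x := by rw [hx, Matrix.mul_assoc, hF2]
  have hxE : x * E = 0 := by rw [hx, Matrix.mul_assoc, hFE, Matrix.mul_zero]
  have hFx : F * x = 0 := by
    rw [hx, ← Matrix.mul_assoc, ← Matrix.mul_assoc, hFE, Matrix.zero_mul, Matrix.zero_mul]
  have hxHE : xᴴ * E = xᴴ := by
    have := congrArg Matrix.conjTranspose hEx
    rwa [Matrix.conjTranspose_mul, hEH] at this
  have hFxH : F * xᴴ = xᴴ := by
    have := congrArg Matrix.conjTranspose hxF
    rwa [Matrix.conjTranspose_mul, hFH] at this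
  have hExH : E * xᴴ = 0 := by
    have := congrArg Matrix.conjTranspose hxE
    rwa [Matrix.conjTranspose_mul, hEH, Matrix.conjTranspose_zero] at this
  have hxHF : xᴴ * F = 0 := by
    have := congrArg Matrix.conjTranspose hFx
    rwa [Matrix.conjTranspose_mul, hFH, Matrix.conjTranspose_zero] at this
  have hEX : E * X = a • E + x := by
    calc E * X = E * X * (E + F) := by rw [hEFadd, Matrix.mul_one]
      _ = E * (X * E) + E * X * F := by rw [Matrix.mul_add, Matrix.mul_assoc E X E]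
      _ = _ := by rw [hXE, Matrix.mul_smul, hE2, ← hx]
  have hXF : X * F = x + b • F := by
    calc X * F = (E + F) * (X * F) := by rw [hEFadd, Matrix.one_mul]
      _ = E * X * F + F * X * F := by
          rw [Matrix.add_mul, ← Matrix.mul_assoc, ← Matrix.mul_assoc]
      _ = _ := by rw [hFX, Matrix.smul_mul, hF2, ← hx]
  -- the separating Hermitian matrix
  set K' : Matrix n n ℂ := (x * xᴴ + E) - (xᴴ * x + F) with hK'
  have hK'H : K'.IsHermitian := by
    show K'ᴴ = K'
    rw [hK', Matrix.conjTranspose_sub, Matrix.conjTranspose_add, Matrix.conjTranspose_add,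
      Matrix.conjTranspose_mul, Matrix.conjTranspose_mul, Matrix.conjTranspose_conjTranspose,
      hEH, hFH]
  set U : Matrix n n ℂ := (hK'H.eigenvectorUnitary : Matrix n n ℂ) with hU
  have hU1 : U * Uᴴ = 1 := Unitary.coe_mul_star_self hK'H.eigenvectorUnitary
  have hU2 : Uᴴ * U = 1 := Unitary.coe_star_mul_self hK'H.eigenvectorUnitary
  set ev : n → ℝ := hK'H.eigenvalues with hev
  have hdiag : Uᴴ * K' * U = diagonal (fun i => (ev i : ℂ)) := by
    have := hK'H.conjStarAlgAut_star_eigenvectorUnitary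
    rw [Unitary.conjStarAlgAut_star_apply] at this
    exact this
  have hK'U : K' * U = U * diagonal (fun i => (ev i : ℂ)) := by
    rw [← hdiag]
    calc K' * U = (U * Uᴴ) * K' * U := by rw [hU1, Matrix.one_mul]
      _ = _ := by simp only [Matrix.mul_assoc]
  have hFK : F * K' = -(xᴴ * x + F) := by
    rw [hK', Matrix.mul_sub, Matrix.mul_add, Matrix.mul_add, hFE, hF2, ← Matrix.mul_assoc F x xᴴ,
      hFx, Matrix.zero_mul, ← Matrix.mul_assoc F xᴴ x, hFxH]
    abel
  have hEK : E * K' = x * xᴴ + E := by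
    rw [hK', Matrix.mul_sub, Matrix.mul_add, Matrix.mul_add, hEF, hE2, ← Matrix.mul_assoc E x xᴴ,
      hEx, ← Matrix.mul_assoc E xᴴ x, hExH, Matrix.zero_mul]
    abel
  set P : Finset n := Finset.univ.filter (fun i => 0 ≤ ev i) with hP
  have hPmem : ∀ i, i ∈ P ↔ 0 ≤ ev i := fun i => by rw [hP]; simp
  -- columns
  have hcolF : ∀ i ∈ P, ∀ r, (F * U) r i = 0 := by
    intro i hi r
    obtain ⟨W, hW⟩ : ∃ W : Matrix n n ℂ, W = F * U := ⟨_, rfl⟩
    rw [← hW]
    have e1 : W * diagonal (fun i => (ev i : ℂ)) = -(xᴴ * (x * W) + W) := by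
      calc W * diagonal (fun i => (ev i : ℂ)) = F * (U * diagonal (fun i => (ev i : ℂ))) := by
            rw [hW, Matrix.mul_assoc]
        _ = F * K' * U := by rw [← hK'U, Matrix.mul_assoc]
        _ = -(xᴴ * (x * F) * U + F * U) := by rw [hFK, hxF, Matrix.neg_mul, Matrix.add_mul]
        _ = _ := by rw [hW]; simp only [Matrix.mul_assoc]
    have e2 : Wᴴ * W * diagonal (fun i => (ev i : ℂ))
        = -((x * W)ᴴ * (x * W) + Wᴴ * W) := by
      rw [Matrix.mul_assoc, e1, Matrix.mul_neg, Matrix.mul_add, ← Matrix.mul_assoc,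
        Matrix.conjTranspose_mul]
    have e3 := congrFun (congrFun e2 i) i
    rw [Matrix.mul_diagonal, Matrix.neg_apply, Matrix.add_apply, diag_self, diag_self] at e3
    have e4 : (∑ r, ‖W r i‖ ^ 2) * ev i = -((∑ r, ‖(x * W) r i‖ ^ 2) + ∑ r, ‖W r i‖ ^ 2) := by
      exact_mod_cast e3
    have e5 : 0 ≤ ∑ r, ‖(x * W) r i‖ ^ 2 := Finset.sum_nonneg fun _ _ => by positivity
    have e6 : 0 ≤ ∑ r, ‖W r i‖ ^ 2 := Finset.sum_nonneg fun _ _ => by positivity
    have e7 : 0 ≤ (∑ r, ‖W r i‖ ^ 2) * ev i := mul_nonneg e6 ((hPmem i).1 hi)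
    exact col_zero W i (by linarith) r
  have hcolE : ∀ i ∈ Pᶜ, ∀ r, (E * U) r i = 0 := by
    intro i hi r
    have hneg : ev i < 0 := by
      by_contra h
      exact (Finset.mem_compl.1 hi) ((hPmem i).2 (not_lt.1 h))
    obtain ⟨W, hW⟩ : ∃ W : Matrix n n ℂ, W = E * U := ⟨_, rfl⟩
    rw [← hW]
    have e1 : W * diagonal (fun i => (ev i : ℂ)) = x * (xᴴ * W) + W := by
      calc W * diagonal (fun i => (ev i : ℂ)) = E * (U * diagonal (fun i => (ev i : ℂ))) := by
            rw [hW, Matrix.mul_assoc]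
        _ = E * K' * U := by rw [← hK'U, Matrix.mul_assoc]
        _ = x * (xᴴ * E) * U + E * U := by rw [hEK, hxHE, Matrix.add_mul]
        _ = _ := by rw [hW]; simp only [Matrix.mul_assoc]
    have e2 : Wᴴ * W * diagonal (fun i => (ev i : ℂ))
        = (xᴴ * W)ᴴ * (xᴴ * W) + Wᴴ * W := by
      rw [Matrix.mul_assoc, e1, Matrix.mul_add, ← Matrix.mul_assoc,
        Matrix.conjTranspose_mul, Matrix.conjTranspose_conjTranspose]
    have e3 := congrFun (congrFun e2 i) i
    rw [Matrix.mul_diagonal, Matrix.add_apply, diag_self, diag_self] at e3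
    have e4 : (∑ r, ‖W r i‖ ^ 2) * ev i = (∑ r, ‖(xᴴ * W) r i‖ ^ 2) + ∑ r, ‖W r i‖ ^ 2 := by
      exact_mod_cast e3
    have e5 : 0 ≤ ∑ r, ‖(xᴴ * W) r i‖ ^ 2 := Finset.sum_nonneg fun _ _ => by positivity
    have e6 : 0 ≤ ∑ r, ‖W r i‖ ^ 2 := Finset.sum_nonneg fun _ _ => by positivity
    have e7 : (∑ r, ‖W r i‖ ^ 2) * ev i ≤ 0 := mul_nonpos_of_nonneg_of_nonpos e6 hneg.le
    exact col_zero W i (by linarith) r
  have hUE : ∀ i ∈ P, ∀ r, U r i = (E * U) r i := by
    intro i hi r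
    have : U r i = (E * U) r i + (F * U) r i := by
      rw [← Matrix.add_apply, ← Matrix.add_mul, hEFadd, Matrix.one_mul]
    rw [this, hcolF i hi r, add_zero]
  have hUF : ∀ i ∈ Pᶜ, ∀ r, U r i = (F * U) r i := by
    intro i hi r
    have : U r i = (E * U) r i + (F * U) r i := by
      rw [← Matrix.add_apply, ← Matrix.add_mul, hEFadd, Matrix.one_mul]
    rw [this, hcolE i hi r, zero_add]
  -- the matrix in the new basis
  set X' : Matrix n n ℂ := Uᴴ * X * U with hX'
  have h1 : ∀ i, ∀ k ∈ P, X' i k = if i = k then a else 0 := by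
    intro i k hk
    rw [hX', entry_congr U U U (E * U) X i k (fun _ => rfl) (hUE k hk)]
    have e : Uᴴ * X * (E * U) = a • (Uᴴ * 1 * (E * U)) := by
      calc Uᴴ * X * (E * U) = Uᴴ * (X * E) * U := by simp only [Matrix.mul_assoc]
        _ = a • (Uᴴ * E * U) := by rw [hXE, Matrix.mul_smul, Matrix.smul_mul]
        _ = _ := by rw [Matrix.mul_one, Matrix.mul_assoc]
    rw [e, Matrix.smul_apply, ← entry_congr U U U (E * U) 1 i k (fun _ => rfl) (hUE k hk),
      Matrix.mul_one, hU2, Matrix.one_apply, smul_eq_mul]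
    split_ifs <;> simp
  have h2 : ∀ j ∈ Pᶜ, ∀ l, X' j l = if j = l then b else 0 := by
    intro j hj l
    rw [hX', entry_congr U (F * U) U U X j l (hUF j hj) (fun _ => rfl)]
    have e : (F * U)ᴴ * X * U = b • ((F * U)ᴴ * 1 * U) := by
      rw [Matrix.conjTranspose_mul, hFH]
      calc Uᴴ * F * X * U = Uᴴ * (F * X) * U := by simp only [Matrix.mul_assoc]
        _ = b • (Uᴴ * F * U) := by rw [hFX, Matrix.mul_smul, Matrix.smul_mul]
        _ = _ := by rw [Matrix.mul_one]
    rw [e, Matrix.smul_apply, ← entry_congr U (F * U) U U 1 j l (hUF j hj) (fun _ => rfl),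
      Matrix.mul_one, hU2, Matrix.one_apply, smul_eq_mul]
    split_ifs <;> simp
  have hZdiag : ∀ (c c' : ℂ) (i k : n), i ≠ k →
      (Uᴴ * (c • (1 : Matrix n n ℂ) + c' • K') * U) i k = 0 := by
    intro c c' i k hik
    have e : Uᴴ * (c • (1 : Matrix n n ℂ) + c' • K') * U
        = c • (Uᴴ * U) + c' • (Uᴴ * K' * U) := by
      rw [Matrix.mul_add, Matrix.add_mul, Matrix.mul_smul, Matrix.smul_mul, Matrix.mul_one,
        Matrix.mul_smul, Matrix.smul_mul]
    rw [e, hU2, hdiag, Matrix.add_apply, Matrix.smul_apply, Matrix.smul_apply,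
      Matrix.one_apply_ne hik, Matrix.diagonal_apply_ne _ hik]
    simp
  have h4 : ∀ i ∈ P, ∀ k ∈ P, i ≠ k → (X' * X'ᴴ) i k = 0 := by
    intro i hi k hk hik
    have e1 : X' * X'ᴴ = Uᴴ * (X * Xᴴ) * U := by
      rw [hX', Matrix.conjTranspose_mul, Matrix.conjTranspose_mul,
        Matrix.conjTranspose_conjTranspose]
      calc Uᴴ * X * U * (Uᴴ * (Xᴴ * U)) = Uᴴ * X * (U * Uᴴ) * (Xᴴ * U) := by
            simp only [Matrix.mul_assoc]
        _ = _ := by rw [hU1, Matrix.mul_one]; simp only [Matrix.mul_assoc]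
    rw [e1, entry_congr U (E * U) U (E * U) (X * Xᴴ) i k (hUE i hi) (hUE k hk)]
    have e2 : (E * U)ᴴ * (X * Xᴴ) * (E * U)
        = (E * U)ᴴ * ((a * star a - 1) • (1 : Matrix n n ℂ) + (1:ℂ) • K') * (E * U) := by
      have e3 : E * (X * Xᴴ) * E = E * ((a * star a - 1) • (1 : Matrix n n ℂ) + (1:ℂ) • K') * E := by
        have l1 : E * (X * Xᴴ) * E = (E * X) * (E * X)ᴴ := by
          rw [Matrix.conjTranspose_mul, hEH]; simp only [Matrix.mul_assoc]
        have l2 : (E * X) * (E * X)ᴴ = (a * star a) • E + x * xᴴ := by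
          rw [hEX, Matrix.conjTranspose_add, Matrix.conjTranspose_smul, hEH, Matrix.add_mul,
            Matrix.mul_add, Matrix.mul_add, Matrix.smul_mul, Matrix.mul_smul, hE2,
            Matrix.smul_mul, hExH, Matrix.mul_smul, hxE, smul_smul]
          simp
        have l3 : E * ((a * star a - 1) • (1 : Matrix n n ℂ) + (1:ℂ) • K') * E
            = (a * star a - 1) • E + (x * xᴴ + E) := by
          rw [Matrix.mul_add, Matrix.add_mul, Matrix.mul_smul, Matrix.mul_one, Matrix.smul_mul, hE2,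
            one_smul, hEK, Matrix.add_mul, hE2, Matrix.mul_assoc, hxHE]
        rw [l1, l2, l3, sub_smul, one_smul]
        abel
      rw [Matrix.conjTranspose_mul, hEH]
      calc Uᴴ * E * (X * Xᴴ) * (E * U) = Uᴴ * (E * (X * Xᴴ) * E) * U := by
            simp only [Matrix.mul_assoc]
        _ = Uᴴ * (E * ((a * star a - 1) • (1 : Matrix n n ℂ) + (1:ℂ) • K') * E) * U := by rw [e3]
        _ = _ := by simp only [Matrix.mul_assoc]
    rw [e2, ← entry_congr U (E * U) U (E * U) _ i k (hUE i hi) (hUE k hk)]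
    exact hZdiag _ _ i k hik
  have h5 : ∀ j ∈ Pᶜ, ∀ l ∈ Pᶜ, j ≠ l → (X'ᴴ * X') j l = 0 := by
    intro i hi k hk hik
    have e1 : X'ᴴ * X' = Uᴴ * (Xᴴ * X) * U := by
      rw [hX', Matrix.conjTranspose_mul, Matrix.conjTranspose_mul,
        Matrix.conjTranspose_conjTranspose]
      calc Uᴴ * (Xᴴ * U) * (Uᴴ * X * U) = Uᴴ * Xᴴ * (U * Uᴴ) * (X * U) := by
            simp only [Matrix.mul_assoc]
        _ = _ := by rw [hU1, Matrix.mul_one]; simp only [Matrix.mul_assoc]
    rw [e1, entry_congr U (F * U) U (F * U) (Xᴴ * X) i k (hUF i hi) (hUF k hk)]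
    have e2 : (F * U)ᴴ * (Xᴴ * X) * (F * U)
        = (F * U)ᴴ * ((star b * b - 1) • (1 : Matrix n n ℂ) + (-1:ℂ) • K') * (F * U) := by
      have e3 : F * (Xᴴ * X) * F
          = F * ((star b * b - 1) • (1 : Matrix n n ℂ) + (-1:ℂ) • K') * F := by
        have l1 : F * (Xᴴ * X) * F = (X * F)ᴴ * (X * F) := by
          rw [Matrix.conjTranspose_mul, hFH]; simp only [Matrix.mul_assoc]
        have l2 : (X * F)ᴴ * (X * F) = (star b * b) • F + xᴴ * x := by
          rw [hXF, Matrix.conjTranspose_add, Matrix.conjTranspose_smul, hFH, Matrix.add_mul,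
            Matrix.mul_add, Matrix.mul_add, Matrix.smul_mul, Matrix.smul_mul, hFx,
            Matrix.mul_smul, Matrix.mul_smul, hF2, hxHF, smul_smul]
          simp only [smul_zero, add_zero, zero_add]
          abel
        have l3 : F * ((star b * b - 1) • (1 : Matrix n n ℂ) + (-1:ℂ) • K') * F
            = (star b * b - 1) • F + (xᴴ * x + F) := by
          rw [Matrix.mul_add, Matrix.add_mul, Matrix.mul_smul, Matrix.mul_one, Matrix.smul_mul, hF2,
            Matrix.mul_smul, hFK, Matrix.smul_mul, Matrix.neg_mul, Matrix.add_mul, hF2,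
            Matrix.mul_assoc, hxF, smul_neg, neg_smul, one_smul, neg_neg]
        rw [l1, l2, l3, sub_smul, one_smul]
        abel
      rw [Matrix.conjTranspose_mul, hFH]
      calc Uᴴ * F * (Xᴴ * X) * (F * U) = Uᴴ * (F * (Xᴴ * X) * F) * U := by
            simp only [Matrix.mul_assoc]
        _ = Uᴴ * (F * ((star b * b - 1) • (1 : Matrix n n ℂ) + (-1:ℂ) • K') * F) * U := by rw [e3]
        _ = _ := by simp only [Matrix.mul_assoc]
    rw [e2, ← entry_congr U (F * U) U (F * U) _ i k (hUF i hi) (hUF k hk)]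
    exact hZdiag _ _ i k hik
  -- transfer
  have hDorth : ∀ a b, a ≠ b → ((Uᴴ * C a * U)ᴴ * (Uᴴ * C b * U)).trace = 0 := by
    intro a b hab
    have e : (Uᴴ * C a * U)ᴴ * (Uᴴ * C b * U) = Uᴴ * ((C a)ᴴ * C b * U) := by
      simp only [Matrix.conjTranspose_mul, Matrix.conjTranspose_conjTranspose]
      calc Uᴴ * ((C a)ᴴ * U) * (Uᴴ * C b * U) = Uᴴ * ((C a)ᴴ * (U * Uᴴ) * C b * U) := by
            simp only [Matrix.mul_assoc]
        _ = _ := by rw [hU1, Matrix.mul_one]
    rw [e, Matrix.trace_mul_comm, Matrix.mul_assoc, hU1, Matrix.mul_one]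
    exact horth a b hab
  have hfin := quad_coord X' P a b h1 h2 h4 h5 (fun c => Uᴴ * C c * U) M hM0 hDorth
    (fun c => by rw [N2_unitary U U hU1 hU1]; exact hM c)
  have hcomm : ∀ c, N2 (X' * (Uᴴ * C c * U) - Uᴴ * C c * U * X') = N2 (X * C c - C c * X) := by
    intro c
    rw [← N2_unitary U U hU1 hU1 (X * C c - C c * X)]
    congr 1
    rw [Matrix.mul_sub, Matrix.sub_mul, hX']
    congr 1
    · calc Uᴴ * X * U * (Uᴴ * C c * U) = Uᴴ * X * (U * Uᴴ) * (C c * U) := by
            simp only [Matrix.mul_assoc]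
        _ = _ := by rw [hU1, Matrix.mul_one]; simp only [Matrix.mul_assoc]
    · calc Uᴴ * C c * U * (Uᴴ * X * U) = Uᴴ * C c * (U * Uᴴ) * (X * U) := by
            simp only [Matrix.mul_assoc]
        _ = _ := by rw [hU1, Matrix.mul_one]; simp only [Matrix.mul_assoc]
  have hNX' : N2 X' = N2 X := N2_unitary U U hU1 hU1 X
  have hNC : ∀ c, N2 (Uᴴ * C c * U) = N2 (C c) := fun c => N2_unitary U U hU1 hU1 (C c)
  simp only [hcomm, hNC, hNX'] at hfin
  exact hfin

/-- the trace bound -/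
lemma trace_bound {κ : Type*} [Fintype κ] (X : Matrix n n ℂ)
    (C : κ → Matrix n n ℂ)
    (horth : ∀ a b, a ≠ b → ((C a)ᴴ * C b).trace = 0) (hM : ∀ a, N2 (C a) ≤ 1) :
    ∑ a, N2 (X * C a - C a * X) ≤ 2 * (Fintype.card n : ℝ) * N2 X := by
  classical
  set W : n → n → Matrix n n ℂ :=
    fun i j => Xᴴ * Matrix.single i j 1 - Matrix.single i j 1 * Xᴴ with hW
  have hWtr : ∀ i j (Y : Matrix n n ℂ), ((W i j)ᴴ * Y).trace = (X * Y - Y * X) i j := by
    intro i j Y
    rw [hW]
    show ((Xᴴ * Matrix.single i j 1 - Matrix.single i j 1 * Xᴴ)ᴴ * Y).trace = _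
    rw [trace_adj, trace_single_conj]
  have hNW : ∀ i j, N2 (W i j) = ((X * Xᴴ) i i).re + ((Xᴴ * X) j j).re
      - 2 * (X i i * star (X j j)).re := by
    intro i j
    rw [N2_eq, hWtr]
    have e : X * W i j - W i j * X
        = X * Xᴴ * Matrix.single i j 1 * 1 - X * Matrix.single i j 1 * Xᴴ
          - Xᴴ * Matrix.single i j 1 * X + 1 * Matrix.single i j 1 * (Xᴴ * X) := by
      simp only [hW, Matrix.mul_sub, Matrix.sub_mul, Matrix.mul_one, Matrix.one_mul,
        Matrix.mul_assoc]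
      abel
    rw [e, Matrix.add_apply, Matrix.sub_apply, Matrix.sub_apply, single_sandwich, single_sandwich,
      single_sandwich, single_sandwich, Matrix.one_apply_eq, Matrix.one_apply_eq, mul_one, one_mul,
      Matrix.conjTranspose_apply, Matrix.conjTranspose_apply]
    have e2 : (star (X i i) * X j j).re = (X i i * star (X j j)).re := by
      simp only [Complex.mul_re, Complex.star_def, Complex.conj_re, Complex.conj_im]
      ring
    simp only [Complex.add_re, Complex.sub_re, e2]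
    ring
  have h1 : ∑ a, N2 (X * C a - C a * X) ≤ ∑ i, ∑ j, N2 (W i j) := by
    have e1 : ∑ a, N2 (X * C a - C a * X)
        = ∑ i, ∑ j, ∑ a, ‖(X * C a - C a * X) i j‖ ^ 2 :=
      (swap3 (fun a i j => ‖(X * C a - C a * X) i j‖ ^ 2)).symm
    rw [e1]
    apply Finset.sum_le_sum; intro i _
    apply Finset.sum_le_sum; intro j _
    have := bessel_gen C 1 zero_le_one horth hM (W i j)
    rw [one_mul] at this
    simpa only [hWtr] using this
  have hA : ∑ i, ((X * Xᴴ) i i).re = N2 X := by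
    rw [← N2_conjTranspose, N2_eq, Matrix.conjTranspose_conjTranspose, Matrix.trace,
      Complex.re_sum]
    rfl
  have hB : ∑ i, ((Xᴴ * X) i i).re = N2 X := by
    rw [N2_eq, Matrix.trace, Complex.re_sum]
    rfl
  have hC : 0 ≤ ∑ i, ∑ j, (X i i * star (X j j)).re := by
    have e : ∑ i, ∑ j, (X i i * star (X j j)).re = ((X.trace) * star (X.trace)).re := by
      rw [Matrix.trace, star_sum, Finset.sum_mul_sum, Complex.re_sum]
      apply Finset.sum_congr rfl; intro i _
      rw [Complex.re_sum]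
      rfl
    rw [e, Complex.star_def, Complex.mul_conj, Complex.ofReal_re]
    exact Complex.normSq_nonneg _
  have h2 : ∑ i, ∑ j, N2 (W i j)
      = 2 * (Fintype.card n : ℝ) * N2 X - 2 * ∑ i, ∑ j, (X i i * star (X j j)).re := by
    simp_rw [hNW]
    simp only [Finset.sum_sub_distrib, Finset.sum_add_distrib, Finset.sum_const,
      Finset.card_univ, nsmul_eq_mul, ← Finset.mul_sum, hA, hB]
    ring
  linarith

end Pool.H629LW
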