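import Mathlib
import Pool.Agent.H629LW.QuadMain

set_option autoImplicit false

/-!
# The exact bound for matrices annihilated by a quadratic polynomial, over `ℝ` or `ℂ`
-/

namespace Pool.H629LW

open Finset Matrix

theorem quad_family (K : Type) [RCLike K] (n : ℕ) (X : Matrix (Fin n) (Fin n) K)
    (hX : ∑ i, ∑ j, ‖X i j‖ ^ 2 = 1) (α β : K)
    (hq : X * X = α • X + β • (1 : Matrix (Fin n) (Fin n) K))
    (k m : ℕ) (hm : m ≤ 2 * k) (Y : Fin m → Matrix (Fin n) (Fin n) K)
    (hY : ∀ a b : Fin m, ∑ i, ∑ j, star (Y a i j) * Y b i j = if a = b then (1 : K) else 0) :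
    ∑ a, ∑ i, ∑ j, ‖(X * Y a - Y a * X) i j‖ ^ 2
        ≤ (if k < n then (2 * (k : ℝ) + 2) else 2 * (n : ℝ)) := by
  set X' : Matrix (Fin n) (Fin n) ℂ := X.map (toC K) with hX'
  set Y' : Fin m → Matrix (Fin n) (Fin n) ℂ := fun a => (Y a).map (toC K) with hY'
  have hNX : N2 X' = 1 := by rw [hX', N2_map, hX]
  have htr : ∀ a b, ((Y' a)ᴴ * Y' b).trace = if a = b then 1 else 0 := by
    intro a b
    rw [trace_conjTranspose_mul]
    have e : ∑ i, ∑ j, star (Y' a i j) * Y' b i j
        = toC K (∑ i, ∑ j, star (Y a i j) * Y b i j) := by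
      rw [map_sum]
      apply Finset.sum_congr rfl; intro i _
      rw [map_sum]
      apply Finset.sum_congr rfl; intro j _
      rw [map_mul, toC_star]
      rfl
    rw [e, hY a b]
    split_ifs <;> simp
  have horth : ∀ a b, a ≠ b → ((Y' a)ᴴ * Y' b).trace = 0 := by
    intro a b hab
    rw [htr a b, if_neg hab]
  have hN : ∀ a, N2 (Y' a) = 1 := by
    intro a
    rw [N2_eq, htr a a, if_pos rfl, Complex.one_re]
  have hcomm : ∀ a, N2 (X' * Y' a - Y' a * X') = ∑ i, ∑ j, ‖(X * Y a - Y a * X) i j‖ ^ 2 := by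
    intro a
    rw [← N2_map]
    congr 1
    ext i j
    simp only [hX', hY', Matrix.sub_apply, Matrix.map_apply, map_sub, Matrix.mul_apply, map_sum,
      map_mul]
  obtain ⟨z, hz⟩ := IsAlgClosed.exists_pow_nat_eq ((toC K α) ^ 2 + 4 * toC K β)
    (n := 2) (by norm_num)
  set a : ℂ := (toC K α + z) / 2 with ha
  set b : ℂ := (toC K α - z) / 2 with hb
  have hab : a + b = toC K α := by rw [ha, hb]; ring
  have hab' : a * b = - toC K β := by
    rw [ha, hb]
    linear_combination (-1 / 4 : ℂ) * hz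
  have hq' : X' * X' = toC K α • X' + toC K β • (1 : Matrix (Fin n) (Fin n) ℂ) := by
    rw [hX', ← Matrix.map_mul, hq]
    ext i j
    simp only [Matrix.map_apply, Matrix.add_apply, Matrix.smul_apply, smul_eq_mul, map_add,
      map_mul]
    congr 2
    rw [Matrix.one_apply, Matrix.one_apply]
    split_ifs <;> simp
  have hquad : (X' - a • (1 : Matrix (Fin n) (Fin n) ℂ)) * (X' - b • (1 : Matrix (Fin n) (Fin n) ℂ))
      = 0 := by
    have e : (X' - a • (1 : Matrix (Fin n) (Fin n) ℂ)) * (X' - b • (1 : Matrix (Fin n) (Fin n) ℂ))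
        = X' * X' - (a + b) • X' + (a * b) • (1 : Matrix (Fin n) (Fin n) ℂ) := by
      rw [Matrix.sub_mul, Matrix.mul_sub, Matrix.mul_sub, Matrix.mul_smul, Matrix.mul_one,
        Matrix.smul_mul, Matrix.one_mul, Matrix.smul_mul, Matrix.one_mul, smul_smul, add_smul]
      abel
    rw [e, hab, hab', hq', neg_smul]
    abel
  have h1 := quad_main X' a b hquad Y' 1 zero_le_one horth (fun a => (hN a).le)
  have h2 := trace_bound X' Y' horth (fun a => (hN a).le)
  simp only [hcomm, hN, hNX, Finset.sum_const, Finset.card_univ, Fintype.card_fin, nsmul_eq_mul,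
    mul_one] at h1 h2
  have hm' : (m : ℝ) ≤ 2 * (k : ℝ) := by exact_mod_cast hm
  split_ifs
  · linarith
  · exact h2

end Pool.H629LW
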